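import Mathlib

/-! Tools on disjoint cycles (by helper87, from the former hand-in ClosureIndependence). -/

namespace Pool.Agent.TF82

open List

universe u

set_option linter.unusedSectionVars false
set_option linter.unusedVariables false

variable {V : Type u} [DecidableEq V]

/-- `CycL G l`: the list `l` runs once around a cycle of `G`. -/
def CycL (G : SimpleGraph V) (l : List V) : Prop :=
  l.Nodup ∧ 3 ≤ l.length ∧ l.IsChain G.Adj ∧ ∀ x ∈ l.getLast?, ∀ y ∈ l.head?, G.Adj x y

theorem CycL.rot {G : SimpleGraph V} {A B : List V} (h : CycL G (A ++ B)) : CycL G (B ++ A) := by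
  obtain ⟨h1, h2, h3, h4⟩ := h
  rcases A with _ | ⟨a, A⟩
  · simpa using ⟨by simpa using h1, by simpa using h2, by simpa using h3, by simpa using h4⟩
  rcases List.eq_nil_or_concat B with rfl | ⟨B', b, rfl⟩
  · simpa using ⟨by simpa using h1, by simpa using h2, by simpa using h3, by simpa using h4⟩
  refine ⟨?_, ?_, ?_, ?_⟩
  · exact (List.isRotated_append.nodup_iff).1 h1
  · simpa [Nat.add_comm, Nat.add_left_comm, Nat.add_assoc] using h2
  · rw [List.isChain_append] at h3 ⊢
    refine ⟨h3.2.1, h3.1, ?_⟩
    intro x hx y hy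
    apply h4 x _ y _
    · rw [List.getLast?_append]
      simp only [Option.mem_def] at hx ⊢
      simp at hx
      simp [hx]
    · simpa using hy
  · rw [List.isChain_append] at h3
    intro x hx y hy
    apply h3.2.2 x _ y _
    · rw [List.getLast?_append] at hx
      simp only [Option.mem_def] at hx ⊢
      rcases hA : (a :: A).getLast? with _ | z
      · simp at hA
      · simp [hA] at hx
        simp [hx]
    · rcases B' with _ | ⟨b', B'⟩
      · simpa using hy
      · simpa using hy

theorem CycL.of_isRotated {G : SimpleGraph V} {l l' : List V} (h : CycL G l) (hr : l ~r l') :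
    CycL G l' := by
  obtain ⟨n, rfl⟩ := hr
  rw [List.rotate_eq_drop_append_take_mod]
  apply CycL.rot
  rwa [List.take_append_drop]

theorem rot_cons {l : List V} {y : V} (hy : y ∈ l) : ∃ r, l ~r (y :: r) := by
  obtain ⟨s, t, rfl⟩ := List.append_of_mem hy
  exact ⟨t ++ s, by simpa using (List.isRotated_append (l := s) (l' := y :: t))⟩

theorem prev_of_rot {l r : List V} {y : V} (hn : l.Nodup) (hr : l ~r (y :: r)) (hy : y ∈ l) :
    l.prev y hy = (y :: r).getLast (by simp) := by
  rw [List.isRotated_prev_eq hr hn hy, List.prev_getLast_cons]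

theorem split_two {l : List V} {y z : V} (hn : l.Nodup) (hy : y ∈ l) (hz : z ∈ l) (hyz : y ≠ z) :
    ∃ A B : List V, l ~r ((y :: A) ++ (z :: B)) ∧ l.prev z hz = (y :: A).getLast (by simp) ∧
      l.prev y hy = (z :: B).getLast (by simp) := by
  obtain ⟨r, hr⟩ := rot_cons hy
  have hz' : z ∈ r := by
    have := hr.perm.mem_iff.1 hz
    rcases List.mem_cons.1 this with h | h
    · exact absurd h.symm hyz
    · exact h
  obtain ⟨A, B, rfl⟩ := List.append_of_mem hz'
  refine ⟨A, B, by simpa using hr, ?_, ?_⟩
  · have h2 : l ~r (z :: (B ++ (y :: A))) := by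
      refine hr.trans ?_
      simpa using (List.isRotated_append (l := y :: A) (l' := z :: B))
    rw [prev_of_rot hn h2 hz]
    rw [List.getLast_cons (by simp), List.getLast_append_of_ne_nil (by simp)]
  · rw [prev_of_rot hn hr hy]
    rw [List.getLast_cons (by simp), List.getLast_append_of_ne_nil (by simp)]

theorem CycL.prev_adj {G : SimpleGraph V} {l : List V} (h : CycL G l) {y : V} (hy : y ∈ l) :
    G.Adj (l.prev y hy) y := by
  obtain ⟨r, hr⟩ := rot_cons hy
  rw [prev_of_rot h.1 hr hy]
  have h' := h.of_isRotated hr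
  exact h'.2.2.2 _ (by rw [List.getLast?_eq_getLast_of_ne_nil (by simp)]; simp) _ (by simp)

theorem prev_inj {l : List V} (hn : l.Nodup) {y z : V} (hy : y ∈ l) (hz : z ∈ l)
    (h : l.prev y hy = l.prev z hz) : y = z := by
  have h1 := List.next_prev l hn y hy
  have h2 := List.next_prev l hn z hz
  rw [← h1, ← h2]
  simp only [h]


theorem insert_path {G : SimpleGraph V} {c q : List V} (hc : CycL G c) {y : V} (hy : y ∈ c)
    (hq : q.Nodup) (hqc : q.IsChain G.Adj) (hdis : ∀ x ∈ q, x ∉ c) {a b : V}
    (ha : q.head? = some a) (hb : q.getLast? = some b) (h1 : G.Adj (c.prev y hy) a)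
    (h2 : G.Adj b y) :
    ∃ c', CycL G c' ∧ (∀ x, x ∈ c' ↔ x ∈ c ∨ x ∈ q) ∧ c'.length = c.length + q.length := by
  obtain ⟨r, hr⟩ := rot_cons hy
  have hc' := hc.of_isRotated hr
  rw [prev_of_rot hc.1 hr hy] at h1
  have hlast : (y :: r).getLast? = some ((y :: r).getLast (by simp)) :=
    List.getLast?_eq_getLast_of_ne_nil (by simp)
  refine ⟨(y :: r) ++ q, ⟨?_, ?_, ?_, ?_⟩, ?_, ?_⟩
  · rw [List.nodup_append]
    refine ⟨hc'.1, hq, ?_⟩
    rintro x hx z hz rfl
    exact hdis x hz (hr.perm.mem_iff.2 hx)
  · have := hc'.2.1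
    rw [List.length_append]; omega
  · rw [List.isChain_append]
    refine ⟨hc'.2.2.1, hqc, ?_⟩
    intro x hx z hz
    rw [hlast] at hx
    rw [ha] at hz
    simp only [Option.mem_def, Option.some.injEq] at hx hz
    rw [← hx, ← hz]
    exact h1
  · intro x hx z hz
    rw [List.getLast?_append, hb] at hx
    simp only [Option.mem_def, Option.some_or, Option.some.injEq] at hx
    simp only [List.cons_append, List.head?_cons, Option.mem_def, Option.some.injEq] at hz
    rw [← hx, ← hz]
    exact h2
  · intro x
    rw [List.mem_append, hr.perm.mem_iff]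
  · rw [List.length_append, hr.perm.length_eq]

theorem insert_cross {G : SimpleGraph V} {c : List V} (hc : CycL G c) {v y z : V} (hy : y ∈ c)
    (hz : z ∈ c) (hv : v ∉ c) (hvy : G.Adj v y) (hvz : G.Adj v z)
    (h : G.Adj (c.prev y hy) (c.prev z hz)) :
    ∃ c', CycL G c' ∧ (∀ x, x ∈ c' ↔ x ∈ c ∨ x = v) ∧ c'.length = c.length + 1 := by
  have hyz : y ≠ z := by
    rintro rfl
    exact G.loopless.irrefl _ h
  obtain ⟨A, B, hr, h1, h2⟩ := split_two hc.1 hy hz hyz
  have hc' := hc.of_isRotated hr
  rw [h1, h2] at h
  have hch := hc'.2.2.1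
  rw [List.isChain_append] at hch
  have hA : (y :: A).getLast? = some ((y :: A).getLast (by simp)) :=
    List.getLast?_eq_getLast_of_ne_nil (by simp)
  have hB : (z :: B).getLast? = some ((z :: B).getLast (by simp)) :=
    List.getLast?_eq_getLast_of_ne_nil (by simp)
  have hmem : ∀ x, x ∈ c ↔ x ∈ y :: A ∨ x ∈ z :: B := by
    intro x
    rw [hr.perm.mem_iff, List.mem_append]
  refine ⟨v :: ((y :: A) ++ (z :: B).reverse), ⟨?_, ?_, ?_, ?_⟩, ?_, ?_⟩
  · rw [List.nodup_cons]
    constructor
    · intro h'
      rw [List.mem_append, List.mem_reverse] at h'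
      exact hv ((hmem v).2 h')
    · have := hc'.1
      rw [List.nodup_append] at this ⊢
      refine ⟨this.1, List.nodup_reverse.2 this.2.1, ?_⟩
      intro x hx w hw
      exact this.2.2 x hx w (List.mem_reverse.1 hw)
  · have := hc'.2.1
    simp only [List.length_append, List.length_cons, List.length_reverse] at this ⊢
    omega
  · rw [List.isChain_cons]
    constructor
    · intro w hw
      simp at hw
      rw [← hw]
      exact hvy
    · rw [List.isChain_append]
      refine ⟨hch.1, ?_, ?_⟩
      · rw [List.isChain_reverse]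
        exact hch.2.1.imp (fun _ _ h => h.symm)
      · intro x hx w hw
        rw [hA] at hx
        rw [List.head?_reverse, hB] at hw
        simp only [Option.mem_def, Option.some.injEq] at hx hw
        rw [← hx, ← hw]
        exact h.symm
  · intro x hx w hw
    simp only [List.head?_cons, Option.mem_def, Option.some.injEq] at hw
    rw [← List.cons_append, List.getLast?_append] at hx
    simp only [List.getLast?_reverse, List.head?_cons, Option.some_or, Option.mem_def,
      Option.some.injEq] at hx
    rw [← hx, ← hw]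
    exact hvz.symm
  · intro x
    rw [List.mem_cons, List.mem_append, List.mem_reverse, hmem]
    tauto
  · rw [hr.perm.length_eq]
    simp

/-- `Reach G U a b`: a walk inside `U` joins `a` to `b`. -/
def Reach (G : SimpleGraph V) (U : Finset V) : V → V → Prop :=
  Relation.ReflTransGen (fun a b => a ∈ U ∧ b ∈ U ∧ G.Adj a b)

theorem Reach.symm {G : SimpleGraph V} {U : Finset V} {a b : V} (h : Reach G U a b) :
    Reach G U b a := by
  unfold Reach at *
  induction h with
  | refl => exact Relation.ReflTransGen.refl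
  | tail _ hbc ih =>
    exact Relation.ReflTransGen.head ⟨hbc.2.1, hbc.1, hbc.2.2.symm⟩ ih

theorem Reach.mono {G : SimpleGraph V} {U W : Finset V} (hUW : U ⊆ W) {a b : V}
    (h : Reach G U a b) : Reach G W a b := by
  unfold Reach at *
  induction h with
  | refl => exact Relation.ReflTransGen.refl
  | tail _ hbc ih =>
    exact Relation.ReflTransGen.tail ih ⟨hUW hbc.1, hUW hbc.2.1, hbc.2.2⟩

theorem Reach.path {G : SimpleGraph V} {U : Finset V} {a b : V} (h : Reach G U a b)
    (ha : a ∈ U) : ∃ q : List V, q.Nodup ∧ q.IsChain G.Adj ∧ q.head? = some a ∧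
      q.getLast? = some b ∧ ∀ x ∈ q, x ∈ U := by
  induction h with
  | refl => exact ⟨[a], by simp, by simp, by simp, by simp, by simpa using ha⟩
  | @tail b c hab hbc ih =>
    obtain ⟨q, h1, h2, h3, h4, h5⟩ := ih
    by_cases hc : c ∈ q
    · obtain ⟨s, t, rfl⟩ := List.append_of_mem hc
      refine ⟨s ++ [c], ?_, ?_, ?_, ?_, ?_⟩
      · have : s ++ c :: t = (s ++ [c]) ++ t := by simp
        rw [this] at h1
        exact (List.nodup_append.1 h1).1
      · have : s ++ c :: t = (s ++ [c]) ++ t := by simp
        rw [this] at h2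
        exact (List.isChain_append.1 h2).1
      · rcases s with _ | ⟨s0, s⟩
        · simpa using h3
        · simpa using h3
      · simp
      · intro x hx
        apply h5
        simp at hx ⊢
        tauto
    · refine ⟨q ++ [c], ?_, ?_, ?_, ?_, ?_⟩
      · rw [List.nodup_append]
        refine ⟨h1, by simp, ?_⟩
        rintro x hx y hy rfl
        simp at hy
        exact hc (hy ▸ hx)
      · rw [List.isChain_append]
        refine ⟨h2, by simp, ?_⟩
        intro x hx y hy
        rw [h4] at hx
        simp at hx hy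
        rw [← hx, ← hy]
        exact hbc.2.2
      · rw [List.head?_append, h3]; simp
      · simp
      · intro x hx
        rcases List.mem_append.1 hx with h | h
        · exact h5 x h
        · simp at h
          rw [h]
          exact hbc.2.1


/-- number of neighbours of `v` in `U` -/
def dU (G : SimpleGraph V) [DecidableRel G.Adj] (U : Finset V) (v : V) : ℕ :=
  (U.filter (fun w => G.Adj v w)).card

/-- Condition (C), required only for independent sets inside one component of `G[U]`. -/
def CLoc (G : SimpleGraph V) [DecidableRel G.Adj] (U : Finset V) : Prop :=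
  ∀ I : Finset V, I ⊆ U → G.IsIndepSet (I : Set V) → (∀ a ∈ I, ∀ b ∈ I, Reach G U a b) →
    ∀ v ∈ I, I.card + 1 ≤ dU G U v

theorem exists_max_nat (P : ℕ → Prop) (B : ℕ) (h : ∃ m, P m) (hB : ∀ m, P m → m ≤ B) :
    ∃ m, P m ∧ ∀ m', P m' → m' ≤ m := by
  have h1 : sSup {m | P m} ∈ {m | P m} := Nat.sSup_mem h ⟨B, fun m hm => hB m hm⟩
  exact ⟨_, h1, fun m' hm' => le_csSup ⟨B, fun m hm => hB m hm⟩ hm'⟩

theorem last_split (P : V → Prop) : ∀ t : List V, (∃ x ∈ t, P x) →
    ∃ r z s, t = r ++ z :: s ∧ P z ∧ ∀ w ∈ s, ¬ P w := by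
  intro t
  induction t with
  | nil => rintro ⟨x, hx, _⟩; simp at hx
  | cons a t ih =>
    rintro ⟨x, hx, hPx⟩
    by_cases h : ∃ x ∈ t, P x
    · obtain ⟨r, z, s, h1, h2, h3⟩ := ih h
      exact ⟨a :: r, z, s, by rw [h1]; simp, h2, h3⟩
    · refine ⟨[], a, t, by simp, ?_, fun w hw hP => h ⟨w, hw, hP⟩⟩
      rcases List.mem_cons.1 hx with rfl | hx
      · exact hPx
      · exact absurd ⟨x, hx, hPx⟩ h

theorem nodup_len_le {U : Finset V} {l : List V} (hn : l.Nodup) (h : ∀ x ∈ l, x ∈ U) :
    l.length ≤ U.card := by
  rw [← List.toFinset_card_of_nodup hn]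
  apply Finset.card_le_card
  intro x hx
  exact h x (List.mem_toFinset.1 hx)

/-- A cycle in `U` containing all neighbours in `U` of one of its vertices. -/
def Closed (G : SimpleGraph V) (U : Finset V) (c : List V) : Prop :=
  CycL G c ∧ (∀ x ∈ c, x ∈ U) ∧ ∃ x ∈ c, ∀ z ∈ U, G.Adj x z → z ∈ c

theorem exists_closed {G : SimpleGraph V} [DecidableRel G.Adj] {U : Finset V} (hU : U.Nonempty)
    (hC : CLoc G U) : ∃ c, Closed G U c := by
  obtain ⟨v0, hv0⟩ := hU
  obtain ⟨m, ⟨l, hl1, hl2, hl3, hl4⟩, hmax⟩ := exists_max_nat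
    (fun m => ∃ l : List V, l.Nodup ∧ l.IsChain G.Adj ∧ (∀ x ∈ l, x ∈ U) ∧ l.length = m) U.card
    ⟨1, [v0], by simp, by simp, by simpa using hv0, by simp⟩
    (by
      rintro m ⟨l, h1, h2, h3, rfl⟩
      exact nodup_len_le h1 h3)
  have hm1 : 1 ≤ m := hmax 1 ⟨[v0], by simp, by simp, by simpa using hv0, by simp⟩
  rcases l with _ | ⟨v, t⟩
  · simp at hl4; omega
  have hvU : v ∈ U := hl3 v (by simp)
  have hnb : ∀ z ∈ U, G.Adj v z → z ∈ t := by
    intro z hz hvz
    by_contra hzt
    have hzv : z ≠ v := fun h => G.loopless.irrefl v (h ▸ hvz)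
    have : m + 1 ≤ m := by
      apply hmax
      refine ⟨z :: v :: t, ?_, ?_, ?_, ?_⟩
      · rw [List.nodup_cons]
        refine ⟨?_, hl1⟩
        intro h
        rcases List.mem_cons.1 h with h | h
        · exact hzv h
        · exact hzt h
      · rw [List.isChain_cons_cons]
        exact ⟨hvz.symm, hl2⟩
      · intro x hx
        rcases List.mem_cons.1 hx with h | h
        · rw [h]; exact hz
        · exact hl3 x h
      · rw [← hl4]; simp
    omega
  have hdeg : 2 ≤ dU G U v := by
    have := hC {v} (by simpa using hvU) (by simp [SimpleGraph.IsIndepSet]) (by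
      intro a ha b hb
      simp at ha hb
      rw [ha, hb]
      exact Relation.ReflTransGen.refl) v (by simp)
    simpa using this
  have hex : ∃ x ∈ t, G.Adj v x := by
    have hpos : 0 < (U.filter (fun w => G.Adj v w)).card := by
      unfold dU at hdeg; omega
    obtain ⟨x, hx⟩ := Finset.card_pos.1 hpos
    rw [Finset.mem_filter] at hx
    exact ⟨x, hnb x hx.1 hx.2, hx.2⟩
  obtain ⟨r, z, s, ht, hz, hs⟩ := last_split (fun x => G.Adj v x) t hex
  have hnb2 : ∀ w ∈ U, G.Adj v w → w ∈ r ++ [z] := by
    intro w hw hvw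
    have h1 := hnb w hw hvw
    rw [ht] at h1
    have h2 : w ∉ s := fun h => hs w h hvw
    simp at h1 ⊢
    tauto
  have hrlen : 1 ≤ r.length := by
    have h1 : (U.filter (fun w => G.Adj v w)) ⊆ (r ++ [z]).toFinset := by
      intro w hw
      rw [Finset.mem_filter] at hw
      exact List.mem_toFinset.2 (hnb2 w hw.1 hw.2)
    have h2 := Finset.card_le_card h1
    have h3 := List.toFinset_card_le (r ++ [z])
    simp only [List.length_append, List.length_cons, List.length_nil] at h3
    unfold dU at hdeg
    omega
  have hsplit : v :: t = (v :: (r ++ [z])) ++ s := by rw [ht]; simp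
  refine ⟨v :: (r ++ [z]), ⟨?_, ?_, ?_, ?_⟩, ?_, v, by simp, ?_⟩
  · rw [hsplit] at hl1
    exact (List.nodup_append.1 hl1).1
  · simp; omega
  · rw [hsplit] at hl2
    exact (List.isChain_append.1 hl2).1
  · intro x hx y hy
    have h1 : (v :: (r ++ [z])).getLast? = some z := by
      rw [← List.cons_append, List.getLast?_append]; simp
    rw [h1] at hx
    simp at hx hy
    rw [← hx, ← hy]
    exact hz.symm
  · intro x hx
    apply hl3
    rw [hsplit]
    exact List.mem_append_left _ hx
  · intro w hw hvw
    exact List.mem_cons_of_mem _ (hnb2 w hw hvw)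

theorem exists_max_closed {G : SimpleGraph V} [DecidableRel G.Adj] {U : Finset V}
    (hU : U.Nonempty) (hC : CLoc G U) :
    ∃ c, Closed G U c ∧ ∀ c', Closed G U c' → c'.length ≤ c.length := by
  obtain ⟨c0, hc0⟩ := exists_closed hU hC
  obtain ⟨m, ⟨c, h1, h2⟩, hmax⟩ := exists_max_nat
    (fun m => ∃ c : List V, Closed G U c ∧ c.length = m) U.card ⟨_, c0, hc0, rfl⟩
    (by
      rintro m ⟨l, h1, rfl⟩
      exact nodup_len_le h1.1.1 h1.2.1)
  exact ⟨c, h1, fun c' hc' => by rw [h2]; exact hmax _ ⟨c', hc', rfl⟩⟩

/-- Theorem A: under the local condition, `U` is covered by at most `α` disjoint cycles. -/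
theorem cover_of_indep {G : SimpleGraph V} [DecidableRel G.Adj] : ∀ (k : ℕ) (U : Finset V),
    CLoc G U → (∀ I : Finset V, I ⊆ U → G.IsIndepSet (I : Set V) → I.card ≤ k) →
    ∃ L : List (List V), L.length ≤ k ∧ (∀ c ∈ L, CycL G c) ∧ L.flatten.Nodup ∧
      ∀ x, x ∈ L.flatten ↔ x ∈ U := by
  intro k
  induction k with
  | zero =>
    intro U _ hI
    refine ⟨[], by simp, by simp, by simp, ?_⟩
    intro x
    constructor
    · simp
    · intro hx
      have := hI {x} (by simpa using hx) (by simp [SimpleGraph.IsIndepSet])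
      simp at this
  | succ k ih =>
    intro U hC hI
    by_cases hU : U.Nonempty
    swap
    · rw [Finset.not_nonempty_iff_eq_empty] at hU
      refine ⟨[], by simp, by simp, by simp, ?_⟩
      intro x
      simp [hU]
    obtain ⟨c, ⟨hc, hcU, x0, hx0, hx0cl⟩, hmax⟩ := exists_max_closed hU hC
    set W : Finset V := U.filter (fun x => x ∉ c) with hW
    have hWU : W ⊆ U := Finset.filter_subset _ _
    -- no insertion is possible
    have noins : ∀ {y a v : V} (hy : y ∈ c), a ∈ W → Reach G W a v → G.Adj v y →
        ¬ G.Adj (c.prev y hy) a := by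
      intro y a v hy haW hav hvy hadj
      obtain ⟨q, hq1, hq2, hq3, hq4, hq5⟩ := hav.path haW
      obtain ⟨c', hc', hmem, hlen⟩ := insert_path hc hy hq1 hq2
        (fun x hx => (Finset.mem_filter.1 (hq5 x hx)).2) hq3 hq4 hadj hvy
      have hcl : Closed G U c' := by
        refine ⟨hc', ?_, x0, (hmem x0).2 (Or.inl hx0), ?_⟩
        · intro x hx
          rcases (hmem x).1 hx with h | h
          · exact hcU x h
          · exact hWU (hq5 x h)
        · intro z hz hxz
          exact (hmem z).2 (Or.inl (hx0cl z hz hxz))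
      have h1 := hmax c' hcl
      have h2 : 1 ≤ q.length := by
        rcases q with _ | ⟨_, _⟩
        · simp at hq3
        · simp
      omega
    have nocross : ∀ {v y z : V} (hy : y ∈ c) (hz : z ∈ c), v ∈ W → G.Adj v y → G.Adj v z →
        ¬ G.Adj (c.prev y hy) (c.prev z hz) := by
      intro v y z hy hz hvW hvy hvz hadj
      obtain ⟨c', hc', hmem, hlen⟩ := insert_cross hc hy hz (Finset.mem_filter.1 hvW).2 hvy hvz hadj
      have hcl : Closed G U c' := by
        refine ⟨hc', ?_, x0, (hmem x0).2 (Or.inl hx0), ?_⟩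
        · intro x hx
          rcases (hmem x).1 hx with h | h
          · exact hcU x h
          · rw [h]; exact hWU hvW
        · intro z hz hxz
          exact (hmem z).2 (Or.inl (hx0cl z hz hxz))
      have h1 := hmax c' hcl
      omega
    have hCW : CLoc G W := by
      intro I hIW hIind hIconn v hvI
      -- neighbours of v on c
      set N : Finset V := c.toFinset.filter (fun w => G.Adj v w) with hN
      have hNc : ∀ w ∈ N, w ∈ c := fun w hw => List.mem_toFinset.1 (Finset.mem_filter.1 hw).1
      set P : Finset V := N.attach.image (fun w => c.prev w.1 (hNc w.1 w.2)) with hP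
      have hPmem : ∀ p, p ∈ P ↔ ∃ y, ∃ hy : y ∈ c, G.Adj v y ∧ p = c.prev y hy := by
        intro p
        rw [hP, Finset.mem_image]
        constructor
        · rintro ⟨w, _, rfl⟩
          exact ⟨w.1, hNc w.1 w.2, (Finset.mem_filter.1 w.2).2, rfl⟩
        · rintro ⟨y, hy, hvy, rfl⟩
          have hyN : y ∈ N := by
            rw [hN, Finset.mem_filter]
            exact ⟨List.mem_toFinset.2 hy, hvy⟩
          exact ⟨⟨y, hyN⟩, Finset.mem_attach _ _, rfl⟩
      have hPcard : P.card = N.card := by
        rw [hP, Finset.card_image_of_injective, Finset.card_attach]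
        intro a b hab
        exact Subtype.ext (prev_inj hc.1 _ _ hab)
      have hPc : ∀ p ∈ P, p ∈ c := by
        intro p hp
        obtain ⟨y, hy, _, rfl⟩ := (hPmem p).1 hp
        exact List.prev_mem _ _ _
      have hvW := hIW hvI
      have hdisj : Disjoint I P := by
        rw [Finset.disjoint_left]
        intro a haI haP
        exact (Finset.mem_filter.1 (hIW haI)).2 (hPc a haP)
      have key := hC (I ∪ P) (by
          intro a ha
          rcases Finset.mem_union.1 ha with h | h
          · exact hWU (hIW h)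
          · exact hcU a (hPc a h)) (by
          intro a ha b hb hab
          rw [Finset.mem_coe, Finset.mem_union] at ha hb
          rcases ha with ha | ha <;> rcases hb with hb | hb
          · exact hIind ha hb hab
          · obtain ⟨y, hy, hvy, rfl⟩ := (hPmem b).1 hb
            intro h
            exact noins hy (hIW ha) (hIconn a ha v hvI) hvy h.symm
          · obtain ⟨y, hy, hvy, rfl⟩ := (hPmem a).1 ha
            intro h
            exact noins hy (hIW hb) (hIconn b hb v hvI) hvy h
          · obtain ⟨y, hy, hvy, rfl⟩ := (hPmem a).1 ha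
            obtain ⟨z, hz, hvz, rfl⟩ := (hPmem b).1 hb
            exact nocross hy hz hvW hvy hvz) (by
          have hto : ∀ a ∈ I ∪ P, Reach G U a v := by
            intro a ha
            rcases Finset.mem_union.1 ha with h | h
            · exact (hIconn a h v hvI).mono hWU
            · obtain ⟨y, hy, hvy, rfl⟩ := (hPmem a).1 h
              exact Relation.ReflTransGen.head
                ⟨hcU _ (List.prev_mem _ _ _), hcU _ hy, hc.prev_adj hy⟩
                (Relation.ReflTransGen.single ⟨hcU _ hy, hWU hvW, hvy.symm⟩)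
          intro a ha b hb
          exact Relation.ReflTransGen.trans (hto a ha) (hto b hb).symm) v
          (Finset.mem_union_left _ hvI)
      rw [Finset.card_union_of_disjoint hdisj, hPcard] at key
      have hsum : dU G U v = N.card + dU G W v := by
        unfold dU
        rw [hN, hW]
        rw [Finset.filter_filter]
        rw [← Finset.card_union_of_disjoint]
        · congr 1
          ext w
          simp only [Finset.mem_filter, Finset.mem_union, List.mem_toFinset]
          constructor
          · rintro ⟨h1, h2⟩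
            by_cases h : w ∈ c
            · exact Or.inl ⟨h, h2⟩
            · exact Or.inr ⟨h1, h, h2⟩
          · rintro (⟨h1, h2⟩ | ⟨h1, h2, h3⟩)
            · exact ⟨hcU w h1, h2⟩
            · exact ⟨h1, h3⟩
        · rw [Finset.disjoint_left]
          intro w h1 h2
          simp only [Finset.mem_filter, List.mem_toFinset] at h1 h2
          exact h2.2.1 h1.1
      omega
    have hIW : ∀ I : Finset V, I ⊆ W → G.IsIndepSet (I : Set V) → I.card ≤ k := by
      intro I hIW hIind
      have hx0I : x0 ∉ I := fun h => (Finset.mem_filter.1 (hIW h)).2 hx0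
      have := hI (insert x0 I) (by
          intro a ha
          rcases Finset.mem_insert.1 ha with h | h
          · rw [h]; exact hcU x0 hx0
          · exact hWU (hIW h)) (by
          intro a ha b hb hab
          rw [Finset.mem_coe, Finset.mem_insert] at ha hb
          have hno : ∀ w ∈ I, ¬ G.Adj x0 w := by
            intro w hw h
            exact (Finset.mem_filter.1 (hIW hw)).2 (hx0cl w (hWU (hIW hw)) h)
          rcases ha with ha | ha <;> rcases hb with hb | hb
          · exact absurd (ha.trans hb.symm) hab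
          · rw [ha]; exact hno b hb
          · rw [hb]; intro h; exact hno a ha h.symm
          · exact hIind ha hb hab)
      rw [Finset.card_insert_of_notMem hx0I] at this
      omega
    obtain ⟨L, hL1, hL2, hL3, hL4⟩ := ih W hCW hIW
    refine ⟨c :: L, by simpa using hL1, ?_, ?_, ?_⟩
    · intro c' hc'
      rcases List.mem_cons.1 hc' with h | h
      · rw [h]; exact hc
      · exact hL2 c' h
    · rw [List.flatten_cons, List.nodup_append]
      refine ⟨hc.1, hL3, ?_⟩
      rintro a ha b hb rfl
      exact (Finset.mem_filter.1 ((hL4 a).1 hb)).2 ha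
    · intro x
      rw [List.flatten_cons, List.mem_append, hL4, hW, Finset.mem_filter]
      constructor
      · rintro (h | h)
        · exact hcU x h
        · exact h.1
      · intro h
        by_cases hx : x ∈ c
        · exact Or.inl hx
        · exact Or.inr ⟨h, hx⟩


/-! ### The closure step -/

/-- `Cov G k`: the vertex set is covered by at most `k` disjoint cycles of `G`. -/
def Cov (G : SimpleGraph V) (k : ℕ) : Prop :=
  ∃ L : List (List V), L.length ≤ k ∧ (∀ c ∈ L, CycL G c) ∧ L.flatten.Nodup ∧
    ∀ x, x ∈ L.flatten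

/-- number of elements of the list adjacent to `a` -/
def cnt (G : SimpleGraph V) [DecidableRel G.Adj] (a : V) (l : List V) : ℕ :=
  (l.filter (fun w => decide (G.Adj a w))).length

theorem cnt_append {G : SimpleGraph V} [DecidableRel G.Adj] (a : V) (l m : List V) :
    cnt G a (l ++ m) = cnt G a l + cnt G a m := by
  unfold cnt; rw [List.filter_append, List.length_append]

theorem cnt_perm {G : SimpleGraph V} [DecidableRel G.Adj] (a : V) {l m : List V}
    (h : l.Perm m) : cnt G a l = cnt G a m := by
  unfold cnt; exact (h.filter _).length_eq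

theorem cnt_eq_card {G : SimpleGraph V} [DecidableRel G.Adj] (a : V) {l : List V}
    (hn : l.Nodup) : cnt G a l = (l.toFinset.filter (fun w => G.Adj a w)).card := by
  unfold cnt
  rw [← List.toFinset_card_of_nodup (hn.filter _), List.toFinset_filter]
  congr 1
  ext w
  simp

/-- shifted neighbourhoods on a cyclic list that do not meet -/
theorem shift_count {G : SimpleGraph V} [DecidableRel G.Adj] {l : List V} (hn : l.Nodup)
    {a b : V} (S : Finset V) (hS : S ⊆ l.toFinset)
    (hb : ∀ w ∈ l, G.Adj b w → w ∈ S)
    (ha : ∀ w, ∀ hw : w ∈ l, G.Adj a w → l.prev w hw ∈ S)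
    (hno : ∀ w, ∀ hw : w ∈ l, G.Adj a w → ¬ G.Adj b (l.prev w hw)) :
    cnt G a l + cnt G b l ≤ S.card := by
  rw [cnt_eq_card a hn, cnt_eq_card b hn]
  set N : Finset V := l.toFinset.filter (fun w => G.Adj a w) with hN
  have hNc : ∀ w ∈ N, w ∈ l := fun w hw => List.mem_toFinset.1 (Finset.mem_filter.1 hw).1
  set P : Finset V := N.attach.image (fun w => l.prev w.1 (hNc w.1 w.2)) with hP
  have hPcard : P.card = N.card := by
    rw [hP, Finset.card_image_of_injective, Finset.card_attach]
    intro a b hab
    exact Subtype.ext (prev_inj hn _ _ hab)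
  rw [← hPcard, ← Finset.card_union_of_disjoint]
  · apply Finset.card_le_card
    intro x hx
    rcases Finset.mem_union.1 hx with h | h
    · rw [hP, Finset.mem_image] at h
      obtain ⟨w, _, rfl⟩ := h
      exact ha _ _ (Finset.mem_filter.1 w.2).2
    · rw [Finset.mem_filter] at h
      exact hb x (List.mem_toFinset.1 h.1) h.2
  · rw [Finset.disjoint_left]
    intro x hx hx2
    rw [hP, Finset.mem_image] at hx
    obtain ⟨w, _, rfl⟩ := hx
    exact hno _ _ (Finset.mem_filter.1 w.2).2 (Finset.mem_filter.1 hx2).2

theorem cyc_count {G : SimpleGraph V} [DecidableRel G.Adj] {l : List V} (hn : l.Nodup)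
    {a b : V} (hno : ∀ w, ∀ hw : w ∈ l, G.Adj a w → ¬ G.Adj b (l.prev w hw)) :
    cnt G a l + cnt G b l ≤ l.length := by
  have := shift_count hn l.toFinset (Finset.Subset.refl _)
    (fun w hw _ => List.mem_toFinset.2 hw)
    (fun w hw _ => List.mem_toFinset.2 (List.prev_mem _ _ _)) hno
  rwa [List.toFinset_card_of_nodup hn] at this

theorem path_count {G : SimpleGraph V} [DecidableRel G.Adj] {l : List V} (hn : l.Nodup)
    {a b : V} (ha : l.head? = some a) (hb : l.getLast? = some b)
    (hno : ∀ w, ∀ hw : w ∈ l, G.Adj a w → ¬ G.Adj b (l.prev w hw)) :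
    cnt G a l + cnt G b l + 1 ≤ l.length := by
  have hbl : b ∈ l := List.mem_of_getLast? hb
  have hal : a ∈ l := List.mem_of_head? ha
  have hprev : l.prev a hal = b := by
    rcases l with _ | ⟨y, r⟩
    · simp at ha
    · simp at ha
      subst ha
      rw [List.prev_getLast_cons]
      rw [List.getLast?_eq_getLast_of_ne_nil (by simp)] at hb
      simpa using hb
  have := shift_count hn (l.toFinset.erase b) (Finset.erase_subset _ _)
    (fun w hw hbw => by
      rw [Finset.mem_erase]
      refine ⟨?_, List.mem_toFinset.2 hw⟩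
      rintro rfl
      exact G.loopless.irrefl _ hbw)
    (fun w hw haw => by
      rw [Finset.mem_erase]
      refine ⟨?_, List.mem_toFinset.2 (List.prev_mem _ _ _)⟩
      intro h
      have : w = a := prev_inj hn hw hal (h.trans hprev.symm)
      rw [this] at haw
      exact G.loopless.irrefl _ haw) hno
  rw [Finset.card_erase_of_mem (List.mem_toFinset.2 hbl), List.toFinset_card_of_nodup hn] at this
  have hpos : 0 < l.length := List.length_pos_of_mem hbl
  omega

/-- closing a path into a cycle through a crossing pair -/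
theorem close_path {G : SimpleGraph V} {p : List V} (hp : p.Nodup) (hlen : 3 ≤ p.length)
    (hch : p.IsChain G.Adj) {a b : V} (ha : p.head? = some a) (hb : p.getLast? = some b)
    {w : V} (hw : w ∈ p) (h1 : G.Adj a w) (h2 : G.Adj b (p.prev w hw)) :
    ∃ c, CycL G c ∧ c.Perm p := by
  rcases p with _ | ⟨y, r⟩
  · simp at ha
  simp at ha
  subst ha
  have hwy : w ≠ y := by
    rintro rfl
    exact G.loopless.irrefl _ h1
  have hwr : w ∈ r := by
    rcases List.mem_cons.1 hw with h | h
    · exact absurd h hwy
    · exact h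
  obtain ⟨A, B, rfl⟩ := List.append_of_mem hwr
  have hrot : (y :: (A ++ w :: B)) ~r (w :: (B ++ (y :: A))) := by
    simpa using (List.isRotated_append (l := y :: A) (l' := w :: B))
  rw [prev_of_rot hp hrot hw, List.getLast_cons (by simp),
    List.getLast_append_of_ne_nil (by simp)] at h2
  have hsplit : y :: (A ++ w :: B) = (y :: A) ++ (w :: B) := by simp
  rw [hsplit] at hp hch hlen hb
  rw [List.isChain_append] at hch
  have hA : (y :: A).getLast? = some ((y :: A).getLast (by simp)) :=
    List.getLast?_eq_getLast_of_ne_nil (by simp)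
  have hB : (w :: B).getLast? = some b := by
    rw [List.getLast?_append] at hb
    rcases hh : (w :: B).getLast? with _ | z
    · simp at hh
    · rw [hh] at hb
      simpa using hb
  refine ⟨(y :: A) ++ (w :: B).reverse, ⟨?_, ?_, ?_, ?_⟩, ?_⟩
  · rw [List.nodup_append] at hp ⊢
    refine ⟨hp.1, List.nodup_reverse.2 hp.2.1, ?_⟩
    intro x hx w hw
    exact hp.2.2 x hx w (List.mem_reverse.1 hw)
  · simpa using hlen
  · rw [List.isChain_append]
    refine ⟨hch.1, ?_, ?_⟩
    · rw [List.isChain_reverse]
      exact hch.2.1.imp (fun _ _ h => h.symm)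
    · intro x hx z hz
      rw [hA] at hx
      rw [List.head?_reverse, hB] at hz
      simp only [Option.mem_def, Option.some.injEq] at hx hz
      rw [← hx, ← hz]
      exact h2.symm
  · intro x hx z hz
    rw [List.getLast?_append] at hx
    simp only [List.getLast?_reverse, List.head?_cons, Option.some_or, Option.mem_def,
      Option.some.injEq] at hx
    simp only [List.cons_append, List.head?_cons, Option.mem_def, Option.some.injEq] at hz
    rw [← hx, ← hz]
    exact h1.symm
  · rw [hsplit]
    exact (List.reverse_perm _).append_left _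

/-- joining a path and a cycle into one cycle -/
theorem join_path {G : SimpleGraph V} {p c : List V} (hp : p.Nodup)
    (hch : p.IsChain G.Adj) {a b : V} (ha : p.head? = some a) (hb : p.getLast? = some b)
    (hc : CycL G c) (hdis : ∀ x ∈ p, x ∉ c)
    {w : V} (hw : w ∈ c) (h1 : G.Adj a w) (h2 : G.Adj b (c.prev w hw)) :
    ∃ c', CycL G c' ∧ c'.Perm (p ++ c) := by
  -- insert the path `p.reverse` between `prev w` and `w`
  obtain ⟨r, hr⟩ := rot_cons hw
  have hc' := hc.of_isRotated hr
  rw [prev_of_rot hc.1 hr hw] at h2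
  have hlast : (w :: r).getLast? = some ((w :: r).getLast (by simp)) :=
    List.getLast?_eq_getLast_of_ne_nil (by simp)
  refine ⟨(w :: r) ++ p.reverse, ⟨?_, ?_, ?_, ?_⟩, ?_⟩
  · rw [List.nodup_append]
    refine ⟨hc'.1, List.nodup_reverse.2 hp, ?_⟩
    rintro x hx z hz rfl
    exact hdis x (List.mem_reverse.1 hz) (hr.perm.mem_iff.2 hx)
  · have := hc'.2.1
    rw [List.length_append]; omega
  · rw [List.isChain_append]
    refine ⟨hc'.2.2.1, ?_, ?_⟩
    · rw [List.isChain_reverse]
      exact hch.imp (fun _ _ h => h.symm)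
    · intro x hx z hz
      rw [hlast] at hx
      rw [List.head?_reverse, hb] at hz
      simp only [Option.mem_def, Option.some.injEq] at hx hz
      rw [← hx, ← hz]
      exact h2.symm
  · intro x hx z hz
    rw [List.getLast?_append, List.getLast?_reverse, ha] at hx
    simp only [Option.mem_def, Option.some_or, Option.some.injEq] at hx
    simp only [List.cons_append, List.head?_cons, Option.mem_def, Option.some.injEq] at hz
    rw [← hx, ← hz]
    exact h1
  · exact (List.perm_append_comm.trans ((List.reverse_perm p).append hr.perm.symm))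



theorem sum_count {G : SimpleGraph V} [DecidableRel G.Adj] {a b : V} : ∀ M : List (List V),
    M.flatten.Nodup →
    (∀ c ∈ M, ∀ w, ∀ hw : w ∈ c, G.Adj a w → ¬ G.Adj b (c.prev w hw)) →
    cnt G a M.flatten + cnt G b M.flatten ≤ M.flatten.length := by
  intro M
  induction M with
  | nil => intro _ _; simp [cnt]
  | cons c M ih =>
    intro hn hno
    rw [List.flatten_cons] at hn ⊢
    rw [List.nodup_append] at hn
    have h1 := ih hn.2.1 (fun c' hc' => hno c' (List.mem_cons_of_mem _ hc'))
    have h2 := cyc_count hn.1 (hno c (by simp))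
    rw [cnt_append, cnt_append, List.length_append]
    omega

theorem chain_of_chain_edge {G G' : SimpleGraph V} {u v : V}
    (hG' : ∀ x y, G'.Adj x y → G.Adj x y ∨ (x = u ∧ y = v) ∨ (x = v ∧ y = u))
    {p : List V} (hn : p.Nodup) (hlen : 3 ≤ p.length) (hch : p.IsChain G'.Adj) {a b : V}
    (ha : p.head? = some a) (hb : p.getLast? = some b)
    (hab : (a = u ∧ b = v) ∨ (a = v ∧ b = u)) : p.IsChain G.Adj := by
  rw [List.isChain_iff_getElem] at hch ⊢
  intro i hi
  rcases hG' _ _ (hch i hi) with h | h
  · exact h
  exfalso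
  have h0 : p[0]'(by omega) = a := by
    rw [List.head?_eq_getElem?, List.getElem?_eq_getElem (by omega)] at ha
    simpa using ha
  have hl : p[p.length - 1]'(by omega) = b := by
    rw [List.getLast?_eq_getElem?, List.getElem?_eq_getElem (by omega)] at hb
    simpa using hb
  have hinj := fun (i j : ℕ) (hi : i < p.length) (hj : j < p.length) =>
    (List.Nodup.getElem_inj_iff hn (i := i) (j := j) (hi := hi) (hj := hj))
  have e1 : p[i] = a ∨ p[i + 1] = a := by
    rcases h with ⟨h1, h2⟩ | ⟨h1, h2⟩ <;> rcases hab with ⟨h3, h4⟩ | ⟨h3, h4⟩ <;>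
      simp [h1, h2, h3]
  have e2 : p[i] = b ∨ p[i + 1] = b := by
    rcases h with ⟨h1, h2⟩ | ⟨h1, h2⟩ <;> rcases hab with ⟨h3, h4⟩ | ⟨h3, h4⟩ <;>
      simp [h1, h2, h4]
  have e3 : i = 0 := by
    rcases e1 with h | h
    · rw [← h0] at h
      exact (hinj _ _ _ _).1 h
    · rw [← h0] at h
      have := (hinj _ _ _ _).1 h
      omega
  rcases e2 with h | h
  · rw [← hl] at h
    have := (hinj _ _ _ _).1 h
    omega
  · rw [← hl] at h
    have := (hinj _ _ _ _).1 h
    omega

theorem open_cycle {G G' : SimpleGraph V} {u v : V}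
    (hG' : ∀ x y, G'.Adj x y → G.Adj x y ∨ (x = u ∧ y = v) ∨ (x = v ∧ y = u))
    {cc : List V} (hc : CycL G' cc) (hnc : ¬ CycL G cc) :
    ∃ p : List V, ∃ a b : V, p.Perm cc ∧ p.IsChain G.Adj ∧ p.head? = some a ∧
      p.getLast? = some b ∧ ((a = u ∧ b = v) ∨ (a = v ∧ b = u)) := by
  have key : ∀ p : List V, CycL G' p → ∀ a b, p.head? = some a → p.getLast? = some b →
      ¬ G.Adj b a → p.IsChain G.Adj ∧ ((a = u ∧ b = v) ∨ (a = v ∧ b = u)) := by
    intro p hp a b ha hb hnab
    have hab : (a = u ∧ b = v) ∨ (a = v ∧ b = u) := by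
      rcases hG' b a (hp.2.2.2 b hb a ha) with h | h | h
      · exact absurd h hnab
      · exact Or.inr ⟨h.2, h.1⟩
      · exact Or.inl ⟨h.2, h.1⟩
    exact ⟨chain_of_chain_edge hG' hp.1 hp.2.1 hp.2.2.1 ha hb hab, hab⟩
  have hc0 : cc ≠ [] := by
    rintro rfl
    have := hc.2.1
    simp at this
  by_cases hch : cc.IsChain G.Adj
  · -- the closing edge is the new one
    have ha : cc.head? = some (cc.head hc0) := List.head?_eq_some_head hc0
    have hb : cc.getLast? = some (cc.getLast hc0) := List.getLast?_eq_getLast_of_ne_nil hc0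
    have hnab : ¬ G.Adj (cc.getLast hc0) (cc.head hc0) := by
      intro h
      apply hnc
      refine ⟨hc.1, hc.2.1, hch, ?_⟩
      intro x hx y hy
      rw [hb] at hx
      rw [ha] at hy
      simp only [Option.mem_def, Option.some.injEq] at hx hy
      rw [← hx, ← hy]
      exact h
    obtain ⟨h1, h2⟩ := key cc hc _ _ ha hb hnab
    exact ⟨cc, _, _, List.Perm.refl _, h1, ha, hb, h2⟩
  · rw [List.isChain_iff_getElem] at hch
    push Not at hch
    obtain ⟨i, hi, hnadj⟩ := hch
    have hsplit : cc = cc.take (i + 1) ++ cc.drop (i + 1) := (List.take_append_drop _ _).symm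
    have hp : CycL G' (cc.drop (i + 1) ++ cc.take (i + 1)) := by
      apply CycL.rot
      rwa [← hsplit]
    have ha : (cc.drop (i + 1) ++ cc.take (i + 1)).head? = some (cc[i + 1]'hi) := by
      rw [List.head?_append, List.head?_drop, List.getElem?_eq_getElem hi]
      simp
    have hb : (cc.drop (i + 1) ++ cc.take (i + 1)).getLast? = some (cc[i]'(by omega)) := by
      rw [List.getLast?_append, List.getLast?_take]
      simp only [Nat.add_eq_zero_iff, one_ne_zero, and_false, if_false]
      rw [Nat.add_sub_cancel, List.getElem?_eq_getElem (by omega)]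
      simp
    obtain ⟨h1, h2⟩ := key _ hp _ _ ha hb hnadj
    refine ⟨_, _, _, ?_, h1, ha, hb, h2⟩
    conv_rhs => rw [hsplit]
    exact List.perm_append_comm

theorem closure_step [Fintype V] {G G' : SimpleGraph V} [DecidableRel G.Adj] {u v : V}
    (hG' : ∀ x y, G'.Adj x y → G.Adj x y ∨ (x = u ∧ y = v) ∨ (x = v ∧ y = u))
    (hdeg : Fintype.card V ≤ dU G Finset.univ u + dU G Finset.univ v) {k : ℕ}
    (h : Cov G' k) : Cov G k := by
  obtain ⟨L, hL1, hL2, hL3, hL4⟩ := h
  by_cases hall : ∀ c ∈ L, CycL G c
  · exact ⟨L, hL1, hall, hL3, hL4⟩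
  push Not at hall
  obtain ⟨c, hcL, hnc⟩ := hall
  obtain ⟨p, a, b, hpc, hpch, hpa, hpb, hab⟩ := open_cycle hG' (hL2 c hcL) hnc
  obtain ⟨L1, L2, rfl⟩ := List.append_of_mem hcL
  set M := L1 ++ L2 with hM
  have hperm : (L1 ++ c :: L2).flatten.Perm (p ++ M.flatten) := by
    refine (List.Perm.flatten List.perm_middle).trans ?_
    rw [List.flatten_cons]
    exact hpc.symm.append_right _
  have hnod : (p ++ M.flatten).Nodup := hperm.nodup_iff.1 hL3
  have hmem : ∀ x, x ∈ p ++ M.flatten := fun x => hperm.mem_iff.1 (hL4 x)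
  have hap : a ∈ p := List.mem_of_head? hpa
  have hbp : b ∈ p := List.mem_of_getLast? hpb
  rw [List.nodup_append] at hnod
  obtain ⟨hpn, hMn, hdis⟩ := hnod
  have hpdis : ∀ c' ∈ M, ∀ x ∈ p, x ∉ c' := by
    intro c' hc' x hx hxc
    exact hdis x hx x (List.mem_flatten.2 ⟨c', hc', hxc⟩) rfl
  have hMc : ∀ c' ∈ M, CycL G c' := by
    intro c' hc'
    have h1 : CycL G' c' := hL2 c' (by
      rw [hM, List.mem_append] at hc'
      rw [List.mem_append, List.mem_cons]
      tauto)
    have hua : ∀ x ∈ c', x ≠ a := fun x hx hxa => hpdis c' hc' a hap (hxa ▸ hx)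
    have hub : ∀ x ∈ c', x ≠ b := fun x hx hxa => hpdis c' hc' b hbp (hxa ▸ hx)
    have himp : ∀ x y, x ∈ c' → y ∈ c' → G'.Adj x y → G.Adj x y := by
      intro x y hx hy hxy
      rcases hG' x y hxy with h | h | h
      · exact h
      · exfalso
        rcases hab with h' | h'
        · exact hua x hx (h.1.trans h'.1.symm)
        · exact hub x hx (h.1.trans h'.2.symm)
      · exfalso
        rcases hab with h' | h'
        · exact hub x hx (h.1.trans h'.2.symm)
        · exact hua x hx (h.1.trans h'.1.symm)
    refine ⟨h1.1, h1.2.1, List.IsChain.imp_of_mem_imp himp h1.2.2.1, ?_⟩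
    intro x hx y hy
    exact himp x y (List.mem_of_getLast? hx) (List.mem_of_head? hy) (h1.2.2.2 x hx y hy)
  have hplen : 3 ≤ p.length := by
    rw [hpc.length_eq]
    exact (hL2 c hcL).2.1
  have hcard : ∀ x, dU G Finset.univ x = cnt G x p + cnt G x M.flatten := by
    intro x
    rw [← cnt_append, cnt_eq_card x (hperm.nodup_iff.1 hL3)]
    unfold dU
    congr 1
    ext w
    simp only [Finset.mem_filter, Finset.mem_univ, true_and, List.mem_toFinset]
    exact ⟨fun h => ⟨hmem w, h⟩, fun h => h.2⟩
  have hcardV : Fintype.card V = p.length + M.flatten.length := by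
    rw [← List.length_append, ← List.toFinset_card_of_nodup (hperm.nodup_iff.1 hL3)]
    rw [← Finset.card_univ]
    congr 1
    ext w
    simp only [Finset.mem_univ, List.mem_toFinset, true_iff]
    exact hmem w
  have hdeg' : Fintype.card V ≤ dU G Finset.univ a + dU G Finset.univ b := by
    rcases hab with ⟨rfl, rfl⟩ | ⟨rfl, rfl⟩
    · exact hdeg
    · rw [Nat.add_comm]; exact hdeg
  by_cases hcross : ∃ w, ∃ hw : w ∈ p, G.Adj a w ∧ G.Adj b (p.prev w hw)
  · obtain ⟨w, hw, h1, h2⟩ := hcross
    obtain ⟨c', hc', hperm'⟩ := close_path hpn hplen hpch hpa hpb hw h1 h2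
    refine ⟨c' :: M, ?_, ?_, ?_, ?_⟩
    · simp only [List.length_append, List.length_cons, hM] at hL1 ⊢
      omega
    · intro d hd
      rcases List.mem_cons.1 hd with h | h
      · rw [h]; exact hc'
      · exact hMc d h
    · rw [List.flatten_cons]
      exact (hperm'.append_right _).nodup_iff.2 (hperm.nodup_iff.1 hL3)
    · intro x
      rw [List.flatten_cons]
      exact (hperm'.append_right _).mem_iff.2 (hmem x)
  by_cases hcross2 : ∃ d ∈ M, ∃ w, ∃ hw : w ∈ d, G.Adj a w ∧ G.Adj b (d.prev w hw)
  · obtain ⟨d, hd, w, hw, h1, h2⟩ := hcross2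
    obtain ⟨c', hc', hperm'⟩ := join_path hpn hpch hpa hpb (hMc d hd) (hpdis d hd) hw h1 h2
    obtain ⟨M1, M2, hM12⟩ := List.append_of_mem hd
    have hperm2 : (p ++ M.flatten).Perm (c' ++ (M1 ++ M2).flatten) := by
      rw [hM12]
      have h3 : (M1 ++ d :: M2).flatten.Perm (d ++ (M1 ++ M2).flatten) := by
        refine (List.Perm.flatten List.perm_middle).trans ?_
        rw [List.flatten_cons]
      refine (h3.append_left p).trans ?_
      rw [← List.append_assoc]
      exact hperm'.symm.append_right _
    refine ⟨c' :: (M1 ++ M2), ?_, ?_, ?_, ?_⟩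
    · have h4 : M.length = (M1 ++ d :: M2).length := by rw [hM12]
      simp only [List.length_append, List.length_cons, hM] at hL1 h4 ⊢
      omega
    · intro e he
      rcases List.mem_cons.1 he with h | h
      · rw [h]; exact hc'
      · apply hMc
        rw [hM12]
        rw [List.mem_append] at h
        rw [List.mem_append, List.mem_cons]
        tauto
    · rw [List.flatten_cons]
      exact hperm2.nodup_iff.1 (hperm.nodup_iff.1 hL3)
    · intro x
      rw [List.flatten_cons]
      exact hperm2.mem_iff.1 (hmem x)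
  · exfalso
    have h1 := path_count hpn hpa hpb (fun w hw h1 h2 => hcross ⟨w, hw, h1, h2⟩)
    have h2 := sum_count M hMn (fun d hd w hw h1 h2 => hcross2 ⟨d, hd, w, hw, h1, h2⟩)
    rw [hcard a, hcard b] at hdeg'
    omega


/-- covers from the two conditions -/
theorem cover_main [Fintype V] (k : ℕ) (hk : 1 ≤ k) : ∀ (m : ℕ) (G : SimpleGraph V)
    [DecidableRel G.Adj],
    (Finset.univ.filter (fun p : V × V => ¬ G.Adj p.1 p.2)).card ≤ m →
    (∀ I : Finset V, G.IsIndepSet (I : Set V) → ∀ v ∈ I, I.card + 1 ≤ dU G Finset.univ v) →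
    (∀ I : Finset V, G.IsIndepSet (I : Set V) → I.card = k + 1 →
      (k + 1) * (Fintype.card V - 1) < 2 * ∑ v ∈ I, dU G Finset.univ v) →
    Cov G k := by
  intro m
  induction m with
  | zero =>
    intro G _ hm hC hD
    have hall : ∀ x y, G.Adj x y := by
      intro x y
      by_contra h
      have : (x, y) ∈ (Finset.univ.filter (fun p : V × V => ¬ G.Adj p.1 p.2)) := by simp [h]
      rw [Finset.card_eq_zero.1 (Nat.le_zero.1 hm)] at this
      simp at this
    refine ⟨[], by simp, by simp, by simp, ?_⟩
    intro x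
    exact absurd (hall x x) (G.loopless.irrefl x)
  | succ m ih =>
    intro G _ hm hC hD
    by_cases hex : ∃ u v : V, u ≠ v ∧ ¬ G.Adj u v ∧
        Fintype.card V ≤ dU G Finset.univ u + dU G Finset.univ v
    · obtain ⟨u, v, huv, hna, hdeg⟩ := hex
      classical
      let G' : SimpleGraph V := G ⊔ SimpleGraph.edge u v
      have hle : G ≤ G' := le_sup_left
      have hG' : ∀ x y, G'.Adj x y → G.Adj x y ∨ (x = u ∧ y = v) ∨ (x = v ∧ y = u) := by
        intro x y hxy
        rw [SimpleGraph.sup_adj, SimpleGraph.edge_adj] at hxy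
        tauto
      have huv' : G'.Adj u v := by
        rw [SimpleGraph.sup_adj, SimpleGraph.edge_adj]
        exact Or.inr ⟨Or.inl ⟨rfl, rfl⟩, huv⟩
      have hd : ∀ x, dU G Finset.univ x ≤ dU G' Finset.univ x := by
        intro x
        unfold dU
        apply Finset.card_le_card
        intro w hw
        rw [Finset.mem_filter] at hw ⊢
        exact ⟨hw.1, hle hw.2⟩
      have hind : ∀ I : Finset V, G'.IsIndepSet (I : Set V) → G.IsIndepSet (I : Set V) := by
        intro I hI a ha b hb hab h
        exact hI ha hb hab (hle h)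
      apply closure_step hG' hdeg
      apply ih G'
      · have hsub : (Finset.univ.filter (fun p : V × V => ¬ G'.Adj p.1 p.2)) ⊂
            (Finset.univ.filter (fun p : V × V => ¬ G.Adj p.1 p.2)) := by
          rw [Finset.ssubset_iff_of_subset]
          · exact ⟨(u, v), by simp [hna], by simp [huv']⟩
          · intro p hp
            rw [Finset.mem_filter] at hp ⊢
            exact ⟨hp.1, fun h => hp.2 (hle h)⟩
        have := Finset.card_lt_card hsub
        omega
      · intro I hI v hv
        exact (hC I (hind I hI) v hv).trans (hd v)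
      · intro I hI hIk
        exact (hD I (hind I hI) hIk).trans_le
          (Nat.mul_le_mul_left _ (Finset.sum_le_sum (fun v _ => hd v)))
    · push Not at hex
      have hα : ∀ I : Finset V, I ⊆ Finset.univ → G.IsIndepSet (I : Set V) → I.card ≤ k := by
        intro I _ hI
        by_contra hcon
        push Not at hcon
        obtain ⟨J, hJI, hJ⟩ := Finset.exists_subset_card_eq (show k + 1 ≤ I.card from hcon)
        have hJind : G.IsIndepSet (J : Set V) := fun a ha b hb hab => hI (hJI ha) (hJI hb) hab
        have hlt := hD J hJind hJ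
        have hpair : ∀ u ∈ J, ∀ v ∈ J.erase u,
            dU G Finset.univ u + dU G Finset.univ v ≤ Fintype.card V - 1 := by
          intro u hu v hv
          rw [Finset.mem_erase] at hv
          have := hex u v (Ne.symm hv.1) (hJind hu hv.2 (Ne.symm hv.1))
          omega
        have hsum : ∑ u ∈ J, ∑ v ∈ J.erase u, (dU G Finset.univ u + dU G Finset.univ v) ≤
            ∑ u ∈ J, ∑ v ∈ J.erase u, (Fintype.card V - 1) :=
          Finset.sum_le_sum (fun u hu => Finset.sum_le_sum (fun v hv => hpair u hu v hv))
        have hl : ∑ u ∈ J, ∑ v ∈ J.erase u, (dU G Finset.univ u + dU G Finset.univ v) +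
            ∑ u ∈ J, dU G Finset.univ u =
            k * ∑ u ∈ J, dU G Finset.univ u + (k + 1) * ∑ u ∈ J, dU G Finset.univ u := by
          have h1 : ∀ u ∈ J, ∑ v ∈ J.erase u, (dU G Finset.univ u + dU G Finset.univ v) +
              dU G Finset.univ u = k * dU G Finset.univ u + ∑ v ∈ J, dU G Finset.univ v := by
            intro u hu
            rw [Finset.sum_add_distrib, Finset.sum_const, smul_eq_mul,
              Finset.card_erase_of_mem hu, hJ, Nat.add_sub_cancel, Nat.add_assoc,
              Finset.sum_erase_add _ _ hu]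
          rw [← Finset.sum_add_distrib, Finset.sum_congr rfl h1, Finset.sum_add_distrib,
            Finset.sum_const, smul_eq_mul, hJ, ← Finset.mul_sum]
        have hr : ∑ u ∈ J, ∑ v ∈ J.erase u, (Fintype.card V - 1) =
            (k + 1) * (k * (Fintype.card V - 1)) := by
          rw [Finset.sum_congr rfl (fun u hu => by
            rw [Finset.sum_const, smul_eq_mul, Finset.card_erase_of_mem hu, hJ,
              Nat.add_sub_cancel]), Finset.sum_const, smul_eq_mul, hJ]
        set S := ∑ u ∈ J, dU G Finset.univ u with hS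
        set n1 := Fintype.card V - 1 with hn1
        have h2 : 2 * (k * S) ≤ (k + 1) * (k * n1) := by
          have h3 := hsum
          rw [hr] at h3
          nlinarith
        have h3 : k * (2 * S) ≤ k * ((k + 1) * n1) := by
          calc k * (2 * S) = 2 * (k * S) := by ring
            _ ≤ (k + 1) * (k * n1) := h2
            _ = k * ((k + 1) * n1) := by ring
        have h4 : 2 * S ≤ (k + 1) * n1 := Nat.le_of_mul_le_mul_left h3 hk
        omega
      obtain ⟨L, h1, h2, h3, h4⟩ := cover_of_indep (G := G) k Finset.univ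
        (fun I _ hI _ v hv => hC I hI v hv) hα
      exact ⟨L, h1, h2, h3, fun x => (h4 x).2 (Finset.mem_univ x)⟩

/-! ### From lists to a spanning 2-regular subgraph -/

/-- the graph formed by the cycles of a family of cyclic lists -/
def listGraph (L : List (List V)) (G : SimpleGraph V) (hL : ∀ c ∈ L, CycL G c) :
    SimpleGraph V where
  Adj x y := ∃ c ∈ L, ∃ hx : x ∈ c, y = c.prev x hx ∨ y = c.next x hx
  symm := ⟨by
    rintro x y ⟨c, hc, hx, h | h⟩
    · subst h
      exact ⟨c, hc, List.prev_mem _ _ _, Or.inr (List.next_prev c (hL c hc).1 x hx).symm⟩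
    · subst h
      exact ⟨c, hc, List.next_mem _ _ _, Or.inl (List.prev_next c (hL c hc).1 x hx).symm⟩⟩
  loopless := ⟨by
    rintro x ⟨c, hc, hx, h | h⟩
    · have := (hL c hc).prev_adj hx
      rw [← h] at this
      exact G.loopless.irrefl _ this
    · have h1 := (hL c hc).prev_adj (List.next_mem c x hx)
      rw [List.prev_next c (hL c hc).1 x hx, ← h] at h1
      exact G.loopless.irrefl _ h1⟩

theorem next_ne_prev {G : SimpleGraph V} {c : List V} (hc : CycL G c) {x : V} (hx : x ∈ c) :
    c.next x hx ≠ c.prev x hx := by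
  intro h
  obtain ⟨r, hr⟩ := rot_cons hx
  have hc' := hc.of_isRotated hr
  have h1 := hc'.1
  have h2 := hc'.2.1
  rw [List.isRotated_next_eq hr hc.1 hx, prev_of_rot hc.1 hr hx] at h
  rcases r with _ | ⟨y, _ | ⟨z, r⟩⟩
  · simp at h2
  · simp at h2
  · rw [List.next_cons_cons_eq] at h
    have h3 : (x :: y :: z :: r).getLast (by simp) ∈ z :: r := by
      rw [List.getLast_cons (by simp), List.getLast_cons (by simp)]
      exact List.getLast_mem _
    rw [← h] at h3
    simp only [List.nodup_cons] at h1
    exact h1.2.1 h3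

theorem twoFactor_of_cov [Fintype V] {G : SimpleGraph V} {k : ℕ} (h : Cov G k) :
    ∃ F : SimpleGraph V, F ≤ G ∧ (∀ v, (F.neighborSet v).ncard = 2) ∧
      Nat.card F.ConnectedComponent ≤ k := by
  obtain ⟨L, hL1, hL2, hL3, hL4⟩ := h
  refine ⟨listGraph L G hL2, ?_, ?_, ?_⟩
  · rintro x y ⟨c, hc, hx, h | h⟩
    · rw [h]; exact ((hL2 c hc).prev_adj hx).symm
    · have h1 := (hL2 c hc).prev_adj (List.next_mem c x hx)
      rw [List.prev_next c (hL2 c hc).1 x hx] at h1
      rw [h]; exact h1
  · intro x
    obtain ⟨c, hc, hx⟩ := List.mem_flatten.1 (hL4 x)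
    have huniq : ∀ d ∈ L, x ∈ d → d = c := by
      intro d hd hxd
      by_contra hne
      have h1 := (List.nodup_flatten.1 hL3).2
      haveI : Std.Symm (fun l₁ l₂ : List V => List.Disjoint l₁ l₂) :=
        ⟨fun _ _ h => h.symm⟩
      have h2 : List.Disjoint c d := List.Pairwise.forall h1 hc hd (Ne.symm hne)
      exact h2 hx hxd
    have hset : (listGraph L G hL2).neighborSet x = {c.prev x hx, c.next x hx} := by
      ext y
      simp only [SimpleGraph.mem_neighborSet, Set.mem_insert_iff, Set.mem_singleton_iff]
      constructor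
      · rintro ⟨d, hd, hxd, h⟩
        have := huniq d hd hxd
        subst this
        exact h
      · intro h
        exact ⟨c, hc, hx, h⟩
    rw [hset, Set.ncard_pair (next_ne_prev (hL2 c hc) hx).symm]
  · have hne : ∀ i : Fin L.length, (L.get i) ≠ [] := by
      intro i h
      have := (hL2 _ (List.get_mem L i)).2.1
      rw [h] at this
      simp at this
    let f : Fin L.length → (listGraph L G hL2).ConnectedComponent := fun i =>
      (listGraph L G hL2).connectedComponentMk ((L.get i).head (hne i))
    have hf : Function.Surjective f := by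
      intro C
      induction C using SimpleGraph.ConnectedComponent.ind with
      | h x =>
        obtain ⟨c, hc, hx⟩ := List.mem_flatten.1 (hL4 x)
        obtain ⟨i, hi, rfl⟩ := List.getElem_of_mem hc
        refine ⟨⟨i, hi⟩, ?_⟩
        simp only [f]
        rw [SimpleGraph.ConnectedComponent.eq]
        -- all vertices of the list are reachable from its head
        have hcyc := hL2 _ hc
        have hall : ∀ j, ∀ hj : j < (L[i]).length,
            (listGraph L G hL2).Reachable ((L[i])[0]'(by omega)) ((L[i])[j]) := by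
          intro j
          induction j with
          | zero => intro hj; exact SimpleGraph.Reachable.refl _
          | succ j ihj =>
            intro hj
            refine (ihj (by omega)).trans (SimpleGraph.Adj.reachable ?_)
            refine ⟨L[i], hc, List.getElem_mem _, Or.inr ?_⟩
            rw [List.next_getElem _ hcyc.1]
            congr 1
            exact (Nat.mod_eq_of_lt (by omega)).symm
        obtain ⟨j, hj, hjx⟩ := List.getElem_of_mem hx
        have h0 : (L.get ⟨i, hi⟩).head (hne ⟨i, hi⟩) = (L[i])[0]'(by omega) := by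
          simp [List.head_eq_getElem]
        rw [h0, ← hjx]
        exact hall j hj
    have hcard := Nat.card_le_card_of_surjective f hf
    have h5 : Nat.card (Fin L.length) = L.length := Nat.card_fin _
    rw [h5] at hcard
    exact hcard.trans hL1

end Pool.Agent.TF82
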