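import Pool.Agent.TF82.EndClique

/-! The decomposition into hubs and cliques. -/

namespace Pool.Agent.TF82

open List

universe u

set_option linter.unusedSectionVars false
set_option linter.unusedVariables false

variable {V : Type u} [DecidableEq V]

/-- `U` consists of the hubs `Z` and, for every hub `i`, a clique `T i`; every clique is adjacent
only to hubs, and every hub has two neighbours in its own clique. -/
structure Dec (G : SimpleGraph V) (U Z : Finset V) (T : V → Finset V) : Prop where
  hZ : Z ⊆ U
  hT : ∀ i ∈ Z, T i ⊆ U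
  hTZ : ∀ i ∈ Z, ∀ x ∈ T i, x ∉ Z
  disj : ∀ i ∈ Z, ∀ j ∈ Z, i ≠ j → ∀ x ∈ T i, x ∉ T j
  cov : ∀ x ∈ U, x ∈ Z ∨ ∃ i ∈ Z, x ∈ T i
  clique : ∀ i ∈ Z, ∀ a ∈ T i, ∀ b ∈ T i, a ≠ b → G.Adj a b
  nb : ∀ i ∈ Z, ∀ a ∈ T i, ∀ x ∈ U, G.Adj a x → x ∈ T i ∨ x ∈ Z
  own : ∀ i ∈ Z, ∃ p ∈ T i, ∃ q ∈ T i, p ≠ q ∧ G.Adj i p ∧ G.Adj i q

/-- a cycle through a clique and an outer vertex with two neighbours in it -/
theorem cycle_clique_hub {G : SimpleGraph V} {T : Finset V} {z : V} (hz : z ∉ T)
    (hT : ∀ a ∈ T, ∀ b ∈ T, a ≠ b → G.Adj a b)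
    {p q : V} (hp : p ∈ T) (hq : q ∈ T) (hpq : p ≠ q) (hzp : G.Adj z p) (hzq : G.Adj z q) :
    ∃ c, CycL G c ∧ ∀ x, x ∈ c ↔ x ∈ insert z T := by
  classical
  set R : List V := ((T.erase p).erase q).toList with hR
  have hRmem : ∀ x, x ∈ R ↔ x ≠ q ∧ x ≠ p ∧ x ∈ T := by
    intro x
    rw [hR, Finset.mem_toList, Finset.mem_erase, Finset.mem_erase]
  have hRn : R.Nodup := Finset.nodup_toList _
  have hn : (p :: (R ++ [q])).Nodup := by
    rw [List.nodup_cons, List.nodup_append]
    refine ⟨?_, hRn, by simp, ?_⟩
    · intro h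
      rcases List.mem_append.1 h with h | h
      · exact ((hRmem p).1 h).2.1 rfl
      · exact hpq (by simpa using h)
    · intro a ha b hb
      rw [List.mem_singleton] at hb
      rw [hb]
      exact ((hRmem a).1 ha).1
  have hmT : ∀ x ∈ p :: (R ++ [q]), x ∈ T := by
    intro x hx
    rw [List.mem_cons, List.mem_append, List.mem_singleton] at hx
    rcases hx with rfl | hx | rfl
    · exact hp
    · exact ((hRmem x).1 hx).2.2
    · exact hq
  have hch : (p :: (R ++ [q])).IsChain G.Adj := by
    apply List.Pairwise.isChain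
    refine List.Pairwise.imp_of_mem ?_ hn
    intro a b ha hb hab
    exact hT a (hmT a ha) b (hmT b hb) hab
  refine ⟨z :: p :: (R ++ [q]), ⟨?_, ?_, ?_, ?_⟩, ?_⟩
  · rw [List.nodup_cons]
    exact ⟨fun h => hz (hmT z h), hn⟩
  · simp
  · rw [List.isChain_cons_cons]
    exact ⟨hzp, hch⟩
  · intro x hx y hy
    have : (z :: p :: (R ++ [q])).getLast? = some q := by
      rw [← List.cons_append, ← List.cons_append, List.getLast?_append]; simp
    rw [this] at hx
    simp at hx hy
    rw [← hx, ← hy]
    exact hzq.symm
  · intro x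
    rw [List.mem_cons, Finset.mem_insert]
    constructor
    · rintro (h | h)
      · exact Or.inl h
      · exact Or.inr (hmT x h)
    · rintro (h | h)
      · exact Or.inl h
      · refine Or.inr ?_
        rw [List.mem_cons, List.mem_append, List.mem_singleton]
        by_cases h1 : x = p
        · exact Or.inl h1
        · by_cases h2 : x = q
          · exact Or.inr (Or.inr h2)
          · exact Or.inr (Or.inl ((hRmem x).2 ⟨h2, h1, h⟩))

theorem CLoc.remove {G : SimpleGraph V} [DecidableRel G.Adj] {U : Finset V} (hC : CLoc G U)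
    {T : Finset V} {z : V} (hTU : T ⊆ U) (hzU : z ∈ U)
    (hnb : ∀ a ∈ T, ∀ x ∈ U, G.Adj a x → x ∈ T ∨ x = z)
    {p : V} (hp : p ∈ T) (hzp : G.Adj z p) {W : Finset V}
    (hW : ∀ x, x ∈ W ↔ x ∈ U ∧ x ≠ z ∧ x ∉ T) : CLoc G W := by
  classical
  have hWU : W ⊆ U := fun x hx => ((hW x).1 hx).1
  have hnT : ∀ a ∈ T, ∀ x ∈ W, ¬ G.Adj a x := by
    intro a ha x hx h
    have hx' := (hW x).1 hx
    rcases hnb a ha x hx'.1 h with h1 | h1
    · exact hx'.2.2 h1
    · exact hx'.2.1 h1
  intro I hIW hI hconn v hv
  have hvW := hIW hv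
  by_cases hvz : G.Adj v z
  · -- add `p`
    have hpI : p ∉ I := fun h => ((hW p).1 (hIW h)).2.2 hp
    have key := hC (insert p I) (by
      intro x hx
      rcases Finset.mem_insert.1 hx with h | h
      · rw [h]; exact hTU hp
      · exact hWU (hIW h)) (by
      intro x hx y hy hxy
      rw [Finset.mem_coe, Finset.mem_insert] at hx hy
      rcases hx with rfl | hx <;> rcases hy with rfl | hy
      · exact absurd rfl hxy
      · exact hnT _ hp _ (hIW hy)
      · exact fun h => hnT _ hp _ (hIW hx) h.symm
      · exact hI hx hy hxy) (by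
      have hto : ∀ a ∈ insert p I, Reach G U a v := by
        intro a ha
        rcases Finset.mem_insert.1 ha with h | h
        · rw [h]
          exact Relation.ReflTransGen.head ⟨hTU hp, hzU, hzp.symm⟩
            (Relation.ReflTransGen.single ⟨hzU, hWU hvW, hvz.symm⟩)
        · exact (hconn a h v hv).mono hWU
      intro a ha b hb
      exact Relation.ReflTransGen.trans (hto a ha) (hto b hb).symm) v
      (Finset.mem_insert_of_mem hv)
    rw [Finset.card_insert_of_notMem hpI] at key
    have hsub : (U.filter (fun w => G.Adj v w)) ⊆ insert z (W.filter (fun w => G.Adj v w)) := by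
      intro x hx
      rw [Finset.mem_filter] at hx
      rw [Finset.mem_insert, Finset.mem_filter, hW]
      by_cases h1 : x = z
      · exact Or.inl h1
      · refine Or.inr ⟨⟨hx.1, h1, ?_⟩, hx.2⟩
        intro h2
        exact hnT x h2 v hvW hx.2.symm
    have h3 := (Finset.card_le_card hsub).trans (Finset.card_insert_le _ _)
    unfold dU at key ⊢
    omega
  · have key := hC I (fun x hx => hWU (hIW hx)) hI
      (fun a ha b hb => (hconn a ha b hb).mono hWU) v hv
    have hsub : (U.filter (fun w => G.Adj v w)) ⊆ (W.filter (fun w => G.Adj v w)) := by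
      intro x hx
      rw [Finset.mem_filter] at hx
      rw [Finset.mem_filter, hW]
      refine ⟨⟨hx.1, ?_, ?_⟩, hx.2⟩
      · rintro rfl
        exact hvz hx.2
      · intro h2
        exact hnT x h2 v hvW hx.2.symm
    have h3 := Finset.card_le_card hsub
    unfold dU at key ⊢
    omega

theorem exists_dec {G : SimpleGraph V} [DecidableRel G.Adj] : ∀ (m : ℕ) (U : Finset V),
    CLoc G U → (∀ I : Finset V, I ⊆ U → G.IsIndepSet (I : Set V) → I.card ≤ m) →
    (∀ L, CovU G U L → m ≤ L.length) →
    ∃ (Z : Finset V) (T : V → Finset V), Z.card = m ∧ Dec G U Z T := by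
  classical
  intro m
  induction m with
  | zero =>
    intro U hC hα hN
    have hU : U = ∅ := by
      rw [Finset.eq_empty_iff_forall_notMem]
      intro x hx
      have := hα {x} (by simpa using hx) (by simp [SimpleGraph.IsIndepSet])
      simp at this
    refine ⟨∅, fun _ => ∅, by simp, ⟨by simp, by simp, by simp, by simp, ?_, by simp, by simp,
      by simp⟩⟩
    intro x hx
    rw [hU] at hx
    simp at hx
  | succ m ih =>
    intro U hC hα hN
    have hU : U.Nonempty := by
      rw [Finset.nonempty_iff_ne_empty]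
      intro h
      have := hN [] ⟨by simp, by simp, by intro x; simp [h]⟩
      simp at this
    obtain ⟨T0, z0, hTU, hzU, hzT, hcl, hnb, p, hp, q, hq, hpq, hzp, hzq⟩ :=
      endClique hU hC m hα hN
    set W : Finset V := U.filter (fun x => x ≠ z0 ∧ x ∉ T0) with hWdef
    have hW : ∀ x, x ∈ W ↔ x ∈ U ∧ x ≠ z0 ∧ x ∉ T0 := by
      intro x; rw [hWdef, Finset.mem_filter]
    have hWU : W ⊆ U := Finset.filter_subset _ _
    have hnT : ∀ a ∈ T0, ∀ x ∈ W, ¬ G.Adj a x := by
      intro a ha x hx h
      have hx' := (hW x).1 hx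
      rcases hnb a ha x hx'.1 h with h1 | h1
      · exact hx'.2.2 h1
      · exact hx'.2.1 h1
    obtain ⟨c, hc, hcm⟩ := cycle_clique_hub hzT hcl hp hq hpq hzp hzq
    obtain ⟨Z, T, hZm, hD⟩ := ih W (hC.remove hTU hzU hnb hp hzp hW) (by
      intro I hIW hI
      have hpI : p ∉ I := fun h => ((hW p).1 (hIW h)).2.2 hp
      have := hα (insert p I) (by
        intro x hx
        rcases Finset.mem_insert.1 hx with h | h
        · rw [h]; exact hTU hp
        · exact hWU (hIW h)) (by
        intro x hx y hy hxy
        rw [Finset.mem_coe, Finset.mem_insert] at hx hy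
        rcases hx with rfl | hx <;> rcases hy with rfl | hy
        · exact absurd rfl hxy
        · exact hnT _ hp _ (hIW hy)
        · exact fun h => hnT _ hp _ (hIW hx) h.symm
        · exact hI hx hy hxy)
      rw [Finset.card_insert_of_notMem hpI] at this
      omega) (by
      intro L hL
      have hWc : W = U.filter (fun x => x ∉ c) := by
        ext x
        rw [hW, Finset.mem_filter, hcm, Finset.mem_insert]
        tauto
      have := hN (c :: L) (CovU.cons hc (by
        intro x hx
        rcases Finset.mem_insert.1 ((hcm x).1 hx) with h | h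
        · rw [h]; exact hzU
        · exact hTU h) (hWc ▸ hL))
      simpa using this)
    have hz0Z : z0 ∉ Z := fun h => ((hW z0).1 (hD.hZ h)).2.1 rfl
    have hT0Z : ∀ x ∈ T0, x ∉ Z := fun x hx h => ((hW x).1 (hD.hZ h)).2.2 hx
    have hTW : ∀ i ∈ Z, ∀ x ∈ T i, x ∈ W := fun i hi x hx => hD.hT i hi hx
    have hne : ∀ i ∈ Z, i ≠ z0 := fun i hi h => hz0Z (h ▸ hi)
    refine ⟨insert z0 Z, fun i => if i = z0 then T0 else T i, ?_, ⟨?_, ?_, ?_, ?_, ?_, ?_, ?_,
      ?_⟩⟩
    · rw [Finset.card_insert_of_notMem hz0Z, hZm]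
    · intro x hx
      rcases Finset.mem_insert.1 hx with h | h
      · rw [h]; exact hzU
      · exact hWU (hD.hZ h)
    · intro i hi
      rcases Finset.mem_insert.1 hi with h | h
      · simp only [h, if_true]; exact hTU
      · simp only [hne i h, if_false]
        exact fun x hx => hWU (hTW i h x hx)
    · intro i hi x hx hxZ
      rcases Finset.mem_insert.1 hi with h | h
      · simp only [h, if_true] at hx
        rcases Finset.mem_insert.1 hxZ with h1 | h1
        · exact hzT (h1 ▸ hx)
        · exact hT0Z x hx h1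
      · simp only [hne i h, if_false] at hx
        rcases Finset.mem_insert.1 hxZ with h1 | h1
        · exact ((hW x).1 (hTW i h x hx)).2.1 h1
        · exact hD.hTZ i h x hx h1
    · intro i hi j hj hij x hx hxj
      rcases Finset.mem_insert.1 hi with h | h <;> rcases Finset.mem_insert.1 hj with h' | h'
      · exact hij (h.trans h'.symm)
      · simp only [h, if_true] at hx
        simp only [hne j h', if_false] at hxj
        exact ((hW x).1 (hTW j h' x hxj)).2.2 hx
      · simp only [h', if_true] at hxj
        simp only [hne i h, if_false] at hx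
        exact ((hW x).1 (hTW i h x hx)).2.2 hxj
      · simp only [hne i h, if_false] at hx
        simp only [hne j h', if_false] at hxj
        exact hD.disj i h j h' hij x hx hxj
    · intro x hx
      by_cases h1 : x = z0
      · exact Or.inl (by rw [h1]; exact Finset.mem_insert_self _ _)
      by_cases h2 : x ∈ T0
      · exact Or.inr ⟨z0, Finset.mem_insert_self _ _, by simpa using h2⟩
      rcases hD.cov x ((hW x).2 ⟨hx, h1, h2⟩) with h | ⟨i, hi, hxi⟩
      · exact Or.inl (Finset.mem_insert_of_mem h)
      · exact Or.inr ⟨i, Finset.mem_insert_of_mem hi, by simpa only [hne i hi, if_false] using hxi⟩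
    · intro i hi a ha b hb hab
      rcases Finset.mem_insert.1 hi with h | h
      · simp only [h, if_true] at ha hb
        exact hcl a ha b hb hab
      · simp only [hne i h, if_false] at ha hb
        exact hD.clique i h a ha b hb hab
    · intro i hi a ha x hx hax
      rcases Finset.mem_insert.1 hi with h | h
      · simp only [h, if_true] at ha ⊢
        rcases hnb a ha x hx hax with h1 | h1
        · exact Or.inl h1
        · exact Or.inr (by rw [h1]; exact Finset.mem_insert_self _ _)
      · simp only [hne i h, if_false] at ha ⊢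
        by_cases h1 : x = z0
        · exact Or.inr (by rw [h1]; exact Finset.mem_insert_self _ _)
        by_cases h2 : x ∈ T0
        · exact absurd hax.symm (hnT x h2 a (hTW i h a ha))
        rcases hD.nb i h a ha x ((hW x).2 ⟨hx, h1, h2⟩) hax with h3 | h3
        · exact Or.inl h3
        · exact Or.inr (Finset.mem_insert_of_mem h3)
    · intro i hi
      rcases Finset.mem_insert.1 hi with h | h
      · simp only [h, if_true]
        exact ⟨p, hp, q, hq, hpq, hzp, hzq⟩
      · simp only [hne i h, if_false]
        exact hD.own i h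

end Pool.Agent.TF82
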