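import Pool.Agent.TF82.Rem

/-! The end clique of a graph whose cycle cover number equals its independence number. -/

namespace Pool.Agent.TF82

open List

universe u

set_option linter.unusedSectionVars false
set_option linter.unusedVariables false

variable {V : Type u} [DecidableEq V]

/-- an end cycle of a path: `c ++ s` is a path of `M` vertices in `U`, the two ends of `c` are
adjacent -/
def EndCyc (G : SimpleGraph V) (U : Finset V) (M : ℕ) (c s : List V) (v z : V) : Prop :=
  c.head? = some v ∧ c.getLast? = some z ∧ 3 ≤ c.length ∧ G.Adj v z ∧ (c ++ s).Nodup ∧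
    (c ++ s).IsChain G.Adj ∧ (∀ x ∈ c ++ s, x ∈ U) ∧ (c ++ s).length = M

theorem exists_endCyc {G : SimpleGraph V} [DecidableRel G.Adj] {U : Finset V} (hU : U.Nonempty)
    (hC : CLoc G U) : ∃ M : ℕ, (∀ l : List V, l.Nodup → l.IsChain G.Adj → (∀ x ∈ l, x ∈ U) →
      l.length ≤ M) ∧ ∃ c s v z, EndCyc G U M c s v z := by
  obtain ⟨v0, hv0⟩ := hU
  obtain ⟨m, ⟨l, hl1, hl2, hl3, hl4⟩, hmax⟩ := exists_max_nat
    (fun m => ∃ l : List V, l.Nodup ∧ l.IsChain G.Adj ∧ (∀ x ∈ l, x ∈ U) ∧ l.length = m) U.card
    ⟨1, [v0], by simp, by simp, by simpa using hv0, by simp⟩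
    (by
      rintro m ⟨l, h1, h2, h3, rfl⟩
      exact nodup_len_le h1 h3)
  have hm1 : 1 ≤ m := hmax 1 ⟨[v0], by simp, by simp, by simpa using hv0, by simp⟩
  refine ⟨m, fun l h1 h2 h3 => hmax _ ⟨l, h1, h2, h3, rfl⟩, ?_⟩
  rcases l with _ | ⟨v, t⟩
  · simp at hl4; omega
  have hvU : v ∈ U := hl3 v (by simp)
  have hnb : ∀ z ∈ U, G.Adj v z → z ∈ t := by
    intro z hz hvz
    by_contra hzt
    have hzv : z ≠ v := fun h => G.loopless.irrefl v (h ▸ hvz)
    have : m + 1 ≤ m := by
      apply hmax
      refine ⟨z :: v :: t, ?_, ?_, ?_, ?_⟩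
      · rw [List.nodup_cons]
        refine ⟨?_, hl1⟩
        intro h
        rcases List.mem_cons.1 h with h | h
        · exact hzv h
        · exact hzt h
      · rw [List.isChain_cons_cons]
        exact ⟨hvz.symm, hl2⟩
      · intro x hx
        rcases List.mem_cons.1 hx with h | h
        · rw [h]; exact hz
        · exact hl3 x h
      · rw [← hl4]; simp
    omega
  have hdeg : 2 ≤ dU G U v := by
    have := hC {v} (by simpa using hvU) (by simp [SimpleGraph.IsIndepSet]) (by
      intro a ha b hb
      simp at ha hb
      rw [ha, hb]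
      exact Relation.ReflTransGen.refl) v (by simp)
    simpa using this
  have hex : ∃ x ∈ t, G.Adj v x := by
    have hpos : 0 < (U.filter (fun w => G.Adj v w)).card := by
      unfold dU at hdeg; omega
    obtain ⟨x, hx⟩ := Finset.card_pos.1 hpos
    rw [Finset.mem_filter] at hx
    exact ⟨x, hnb x hx.1 hx.2, hx.2⟩
  obtain ⟨r, z, s, ht, hz, hs⟩ := last_split (fun x => G.Adj v x) t hex
  have hnb2 : ∀ w ∈ U, G.Adj v w → w ∈ r ++ [z] := by
    intro w hw hvw
    have h1 := hnb w hw hvw
    rw [ht] at h1
    have h2 : w ∉ s := fun h => hs w h hvw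
    simp at h1 ⊢
    tauto
  have hrlen : 1 ≤ r.length := by
    have h1 : (U.filter (fun w => G.Adj v w)) ⊆ (r ++ [z]).toFinset := by
      intro w hw
      rw [Finset.mem_filter] at hw
      exact List.mem_toFinset.2 (hnb2 w hw.1 hw.2)
    have h2 := Finset.card_le_card h1
    have h3 := List.toFinset_card_le (r ++ [z])
    simp only [List.length_append, List.length_cons, List.length_nil] at h3
    unfold dU at hdeg
    omega
  have hsplit : v :: t = (v :: (r ++ [z])) ++ s := by rw [ht]; simp
  refine ⟨v :: (r ++ [z]), s, v, z, by simp, ?_, ?_, hz, ?_, ?_, ?_, ?_⟩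
  · rw [← List.cons_append, List.getLast?_append]; simp
  · simp; omega
  · rw [← hsplit]; exact hl1
  · rw [← hsplit]; exact hl2
  · rw [← hsplit]; exact hl3
  · rw [← hsplit]; exact hl4

theorem first_split (P : V → Prop) : ∀ t : List V, (∃ x ∈ t, ¬ P x) →
    ∃ r z s, t = r ++ z :: s ∧ ¬ P z ∧ ∀ w ∈ r, P w := by
  intro t
  induction t with
  | nil => rintro ⟨x, hx, _⟩; simp at hx
  | cons a t ih =>
    rintro ⟨x, hx, hPx⟩
    by_cases ha : P a
    · have hx' : x ∈ t := by
        rcases List.mem_cons.1 hx with h | h
        · exact absurd (h ▸ ha) hPx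
        · exact h
      obtain ⟨r, z, s, h1, h2, h3⟩ := ih ⟨x, hx', hPx⟩
      refine ⟨a :: r, z, s, by rw [h1]; simp, h2, ?_⟩
      intro w hw
      rcases List.mem_cons.1 hw with h | h
      · rw [h]; exact ha
      · exact h3 w h
    · exact ⟨[], a, t, by simp, ha, by simp⟩

theorem endClique {G : SimpleGraph V} [DecidableRel G.Adj] {U : Finset V} (hU : U.Nonempty)
    (hC : CLoc G U) (m : ℕ)
    (hα : ∀ I : Finset V, I ⊆ U → G.IsIndepSet (I : Set V) → I.card ≤ m + 1)
    (hN : ∀ L, CovU G U L → m + 1 ≤ L.length) :
    ∃ (T : Finset V) (z : V), T ⊆ U ∧ z ∈ U ∧ z ∉ T ∧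
      (∀ a ∈ T, ∀ b ∈ T, a ≠ b → G.Adj a b) ∧
      (∀ a ∈ T, ∀ x ∈ U, G.Adj a x → x ∈ T ∨ x = z) ∧
      (∃ p ∈ T, ∃ q ∈ T, p ≠ q ∧ G.Adj z p ∧ G.Adj z q) := by
  classical
  obtain ⟨M, hM, c1, s1, v1, z1, h1⟩ := exists_endCyc hU hC
  obtain ⟨n, ⟨c, s, v, z, ⟨hhead, hlast, hlen, hvz, hnod, hch, hcsU, hcsM⟩, hcn⟩, hmax⟩ :=
    exists_max_nat (fun n => ∃ c s v z, EndCyc G U M c s v z ∧ c.length = n) M
      ⟨_, c1, s1, v1, z1, h1, rfl⟩ (by
        rintro n ⟨c, s, v, z, h, rfl⟩
        have := h.2.2.2.2.2.2.2
        rw [List.length_append] at this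
        omega)
  have hcU : ∀ x ∈ c, x ∈ U := fun x hx => hcsU x (List.mem_append_left _ hx)
  have hcnod : c.Nodup := (List.nodup_append.1 hnod).1
  have hcch : c.IsChain G.Adj := (List.isChain_append.1 hch).1
  have hsch := List.isChain_append.1 hch
  have hcc : CycL G c := ⟨hcnod, hlen, hcch, by
    intro x hx y hy
    rw [hlast] at hx
    rw [hhead] at hy
    simp only [Option.mem_def, Option.some.injEq] at hx hy
    rw [← hx, ← hy]
    exact hvz.symm⟩
  -- terminal vertices
  set Term : V → Prop := fun w => ∃ q : List V, q.Perm c ∧ q.IsChain G.Adj ∧ q.head? = some w ∧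
    q.getLast? = some z with hTerm
  have hTc : ∀ w, Term w → w ∈ c := by
    rintro w ⟨q, hq1, _, hq3, _⟩
    exact hq1.mem_iff.1 (List.mem_of_head? hq3)
  have hTcl : ∀ w, Term w → ∀ x ∈ U, G.Adj w x → x ∈ c := by
    rintro w ⟨q, hq1, hq2, hq3, hq4⟩ x hx hwx
    have hqs : (q ++ s).Perm (c ++ s) := hq1.append_right s
    have hqsn : (q ++ s).Nodup := hqs.nodup_iff.2 hnod
    have hqsc : (q ++ s).IsChain G.Adj := by
      rw [List.isChain_append]
      refine ⟨hq2, hsch.2.1, ?_⟩
      intro a ha b hb
      rw [hq4] at ha
      exact hsch.2.2 a (by rw [hlast]; exact ha) b hb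
    have hqsU : ∀ y ∈ q ++ s, y ∈ U := fun y hy => hcsU y (hqs.mem_iff.1 hy)
    have hqne : q ≠ [] := by
      rintro rfl
      simp at hq3
    have hxq : x ∈ q ++ s := by
      by_contra hxn
      have hle := hM (x :: (q ++ s)) (List.nodup_cons.2 ⟨hxn, hqsn⟩) (by
        rcases q with _ | ⟨q0, q'⟩
        · exact absurd rfl hqne
        · simp at hq3
          subst hq3
          rw [List.cons_append, List.isChain_cons_cons]
          exact ⟨hwx.symm, hqsc⟩) (by
        intro y hy
        rcases List.mem_cons.1 hy with h | h
        · rw [h]; exact hx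
        · exact hqsU y h)
      rw [List.length_cons, hqs.length_eq, hcsM] at hle
      omega
    rcases List.mem_append.1 hxq with h | h
    · exact hq1.mem_iff.1 h
    · exfalso
      obtain ⟨s1, s2, rfl⟩ := List.append_of_mem h
      have hsp : q ++ (s1 ++ x :: s2) = (q ++ s1 ++ [x]) ++ s2 := by simp
      have hle := hmax (q ++ s1 ++ [x]).length ⟨q ++ s1 ++ [x], s2, w, x, ⟨?_, ?_, ?_, hwx, ?_, ?_,
        ?_, ?_⟩, rfl⟩
      · have := hq1.length_eq
        simp only [List.length_append, List.length_cons, List.length_nil] at hle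
        omega
      · rw [List.append_assoc, List.head?_append, hq3]; simp
      · rw [List.getLast?_append]; simp
      · have := hq1.length_eq
        simp only [List.length_append, List.length_cons, List.length_nil]
        omega
      · rw [← hsp]; exact hqsn
      · rw [← hsp]; exact hqsc
      · rw [← hsp]; exact hqsU
      · rw [← hsp, hqs.length_eq]; exact hcsM
  have hTz : ¬ Term z := by
    rintro ⟨q, hq1, hq2, hq3, hq4⟩
    have hqn : q.Nodup := hq1.nodup_iff.2 hcnod
    have hql := hq1.length_eq
    rcases q with _ | ⟨a, q⟩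
    · simp at hq3
    · simp at hq3
      subst hq3
      rcases List.eq_nil_or_concat q with rfl | ⟨q', b, rfl⟩
      · simp at hql; omega
      · have h2 : (a :: (q' ++ [b])).getLast? = some b := by
          rw [← List.cons_append, List.getLast?_append]; simp
        simp only [List.concat_eq_append] at hq4 hqn
        rw [h2] at hq4
        simp only [Option.some.injEq] at hq4
        subst hq4
        simp at hqn
  have hTclique : ∀ a b, Term a → Term b → a ≠ b → G.Adj a b := by
    intro a b ha hb hab
    by_contra hadj
    have hcl : ClosedS G U {a, b} c := by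
      refine ⟨hcc, hcU, ?_, ?_⟩
      · intro x hx
        rw [Finset.mem_insert, Finset.mem_singleton] at hx
        rcases hx with rfl | rfl
        · exact hTc _ ha
        · exact hTc _ hb
      · intro x hx y hy hxy
        rw [Finset.mem_insert, Finset.mem_singleton] at hx
        rcases hx with rfl | rfl
        · exact hTcl _ ha y hy hxy
        · exact hTcl _ hb y hy hxy
    rcases m with _ | m
    · have := hα {a, b} (by
        intro x hx
        rw [Finset.mem_insert, Finset.mem_singleton] at hx
        rcases hx with rfl | rfl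
        · exact hcU _ (hTc _ ha)
        · exact hcU _ (hTc _ hb)) (by
        intro x hx y hy hxy
        rw [Finset.mem_coe, Finset.mem_insert, Finset.mem_singleton] at hx hy
        rcases hx with rfl | rfl <;> rcases hy with rfl | rfl
        · exact absurd rfl hxy
        · exact hadj
        · exact fun h => hadj h.symm
        · exact absurd rfl hxy)
      rw [Finset.card_pair hab] at this
      omega
    · obtain ⟨L, hL1, hL2⟩ := cov_of_pair hC hab hadj hcl m hα
      have := hN L hL2
      omega
  -- the list without its last element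
  obtain ⟨c', rfl⟩ : ∃ c', c = c' ++ [z] := by
    rcases List.eq_nil_or_concat c with rfl | ⟨c', b, rfl⟩
    · simp at hhead
    · refine ⟨c', ?_⟩
      rw [List.concat_eq_append] at hlast ⊢
      rw [List.getLast?_append] at hlast
      simp at hlast
      rw [hlast]
  have hc'len : 2 ≤ c'.length := by
    simp only [List.length_append, List.length_cons, List.length_nil] at hlen
    omega
  have hc'ne : c' ≠ [] := by
    rintro rfl
    simp at hc'len
  have hc'head : c'.head? = some v := by
    rw [List.head?_append_of_ne_nil _ hc'ne] at hhead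
    exact hhead
  have hc'ch := (List.isChain_append.1 hcch)
  set w1 := c'.getLast hc'ne with hw1
  have hc'last : c'.getLast? = some w1 := List.getLast?_eq_getLast_of_ne_nil hc'ne
  have hTv : Term v := ⟨c' ++ [z], List.Perm.refl _, hcch, hhead, hlast⟩
  have hzw1 : G.Adj w1 z := hc'ch.2.2 w1 hc'last z (by simp)
  have hTw1 : Term w1 := by
    refine ⟨c'.reverse ++ [z], (List.reverse_perm _).append_right _, ?_, ?_, ?_⟩
    · rw [List.isChain_append]
      refine ⟨?_, by simp, ?_⟩
      · rw [List.isChain_reverse]
        exact hc'ch.1.imp (fun _ _ h => h.symm)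
      · intro x hx y hy
        rw [List.getLast?_reverse, hc'head] at hx
        simp at hx hy
        rw [← hx, ← hy]
        exact hvz
    · rw [List.head?_append_of_ne_nil _ (by simpa using hc'ne), List.head?_reverse]
      exact hc'last
    · rw [List.getLast?_append]; simp
  have hvw1 : v ≠ w1 := by
    intro h
    rcases c' with _ | ⟨a, c''⟩
    · exact hc'ne rfl
    · simp at hc'head
      rcases List.eq_nil_or_concat c'' with h0 | ⟨d, b, h0⟩
      · rw [h0] at hc'len; simp at hc'len
      · rw [List.concat_eq_append] at h0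
        have h2 : (a :: c'').getLast? = some b := by
          rw [h0, ← List.cons_append, List.getLast?_append]; simp
        rw [hc'last] at h2
        simp only [Option.some.injEq] at h2
        have hb : b = a := by rw [← h2, ← h, hc'head]
        rw [h0, hb] at hcnod
        simp at hcnod
  -- all vertices of the cycle except z are terminal
  have hall : ∀ x ∈ c', Term x := by
    by_contra hcon
    push Not at hcon
    obtain ⟨A, x', B, hAB, hx', hA⟩ := first_split Term c' hcon
    have hAne : A ≠ [] := by
      rintro rfl
      rw [hAB] at hc'head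
      simp at hc'head
      rw [hc'head] at hx'
      exact hx' hTv
    have hBne : B ≠ [] := by
      rintro rfl
      rw [hAB, List.getLast?_append] at hc'last
      simp at hc'last
      rw [hc'last] at hx'
      exact hx' hTw1
    have hBlast : B.getLast? = some w1 := by
      rw [hAB, List.getLast?_append] at hc'last
      rcases List.eq_nil_or_concat B with rfl | ⟨B', b, rfl⟩
      · exact absurd rfl hBne
      · rw [List.concat_eq_append] at hc'last ⊢
        rw [← List.cons_append, List.getLast?_append] at hc'last
        rw [List.getLast?_append]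
        simpa using hc'last
    have hAhead : A.head? = some v := by
      rw [hAB, List.head?_append_of_ne_nil _ hAne] at hc'head
      exact hc'head
    have hAlast : A.getLast? = some (A.getLast hAne) := List.getLast?_eq_getLast_of_ne_nil hAne
    have hTA : Term (A.getLast hAne) := hA _ (List.getLast_mem hAne)
    have hchAB := hc'ch.1
    rw [hAB, List.isChain_append] at hchAB
    apply hx'
    refine ⟨((x' :: B) ++ A.reverse) ++ [z], ?_, ?_, ?_, ?_⟩
    · refine List.Perm.append_right _ ?_
      rw [hAB]
      exact ((List.reverse_perm A).append_left _).trans List.perm_append_comm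
    · rw [List.isChain_append, List.isChain_append]
      refine ⟨⟨hchAB.2.1, ?_, ?_⟩, by simp, ?_⟩
      · rw [List.isChain_reverse]
        exact hchAB.1.imp (fun _ _ h => h.symm)
      · intro x hx y hy
        have hx2 : x = w1 := by
          have : (x' :: B).getLast? = some w1 := by
            rcases List.eq_nil_or_concat B with rfl | ⟨B', b, rfl⟩
            · exact absurd rfl hBne
            · rw [List.concat_eq_append] at hBlast ⊢
              rw [List.getLast?_append] at hBlast
              rw [← List.cons_append, List.getLast?_append]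
              simpa using hBlast
          rw [this] at hx
          simpa using hx.symm
        rw [List.head?_reverse, hAlast] at hy
        simp only [Option.mem_def, Option.some.injEq] at hy
        rw [hx2, ← hy]
        apply hTclique _ _ hTw1 hTA
        intro heq
        -- w1 lies in B, the last of A in A
        have h1 : w1 ∈ x' :: B := List.mem_cons_of_mem _ (List.mem_of_getLast? hBlast)
        have h2 : A.getLast hAne ∈ A := List.getLast_mem hAne
        have h3 := (List.nodup_append.1 hcnod).1
        rw [hAB, List.nodup_append] at h3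
        exact h3.2.2 _ h2 _ h1 heq.symm
      · intro x hx y hy
        rw [List.getLast?_append, List.getLast?_reverse, hAhead] at hx
        simp at hx hy
        rw [← hx, ← hy]
        exact hvz
    · simp
    · rw [List.getLast?_append]; simp
  refine ⟨c'.toFinset, z, ?_, hcU z (by simp), ?_, ?_, ?_, v, ?_, w1, ?_, hvw1, hvz.symm,
    hzw1.symm⟩
  · intro x hx
    exact hcU x (List.mem_append_left _ (List.mem_toFinset.1 hx))
  · intro hz
    exact hTz (hall z (List.mem_toFinset.1 hz))
  · intro a ha b hb hab
    exact hTclique a b (hall a (List.mem_toFinset.1 ha)) (hall b (List.mem_toFinset.1 hb)) hab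
  · intro a ha x hx hax
    have := hTcl a (hall a (List.mem_toFinset.1 ha)) x hx hax
    rcases List.mem_append.1 this with h | h
    · exact Or.inl (List.mem_toFinset.2 h)
    · exact Or.inr (by simpa using h)
  · exact List.mem_toFinset.2 (List.mem_of_head? hc'head)
  · exact List.mem_toFinset.2 (List.getLast_mem hc'ne)

end Pool.Agent.TF82
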