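import Pool.Agent.TF82.SegL

/-! Counting: from the decomposition to a cover with fewer cycles. -/

namespace Pool.Agent.TF82

open List

universe u

set_option linter.unusedSectionVars false
set_option linter.unusedVariables false

variable {V : Type u} [DecidableEq V]

/-- hubs with two neighbours in `T i` -/
def DH (G : SimpleGraph V) [DecidableRel G.Adj] (Z : Finset V) (T : V → Finset V) (i : V) :
    Finset V := Z.filter (fun z => 2 ≤ (NT G (T i) z).card)

/-- the hubs used at `i` -/
def GH (G : SimpleGraph V) [DecidableRel G.Adj] (Z : Finset V) (T : V → Finset V) (i : V) :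
    Finset V := (DH G Z T i).filter (fun z => z = i ∨ (T i).card = 2 ∨
      3 ≤ (NT G (T i) i).card ∨ NT G (T i) z ≠ NT G (T i) i)

theorem own_card {G : SimpleGraph V} [DecidableRel G.Adj] {U Z : Finset V} {T : V → Finset V}
    (hD : Dec G U Z T) {i : V} (hi : i ∈ Z) : 2 ≤ (NT G (T i) i).card := by
  obtain ⟨p, hp, q, hq, hpq, hip, hiq⟩ := hD.own i hi
  have hsub : ({p, q} : Finset V) ⊆ NT G (T i) i := by
    intro x hx
    rw [Finset.mem_insert, Finset.mem_singleton] at hx
    rw [mem_NT]
    rcases hx with rfl | rfl
    · exact ⟨hp, hip⟩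
    · exact ⟨hq, hiq⟩
  have := Finset.card_le_card hsub
  rw [Finset.card_pair hpq] at this
  exact this

/-- the main estimate: some vertex of the clique has few hub neighbours -/
theorem exists_few {G : SimpleGraph V} [DecidableRel G.Adj] {U Z : Finset V} {T : V → Finset V}
    (hD : Dec G U Z T) {i : V} (hi : i ∈ Z)
    (hdeg : ∀ w ∈ T i, Z.card + 2 ≤ (Z.filter (fun z => G.Adj w z)).card + (T i).card) :
    ∃ w ∈ T i, (Z.filter (fun z => G.Adj w z)).card ≤ (GH G Z T i).card := by
  classical
  set t := (T i).card with ht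
  set D := DH G Z T i with hDdef
  set B : V → Finset V := fun w => Z.filter (fun z => NT G (T i) z = {w}) with hB
  obtain ⟨p, hp, q, hq, hpq, hip, hiq⟩ := hD.own i hi
  have ht2 : 2 ≤ t := by
    have h1 := hdeg p hp
    have h2 : (Z.filter (fun z => G.Adj p z)).card ≤ Z.card := Finset.card_filter_le _ _
    omega
  have hBD : ∀ w, Disjoint (B w) D := by
    intro w
    rw [Finset.disjoint_left]
    intro z hz hzD
    simp only [hB, Finset.mem_filter] at hz
    rw [hDdef, DH, Finset.mem_filter, hz.2] at hzD
    simp at hzD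
  have hBB : ∀ w w', w ≠ w' → Disjoint (B w) (B w') := by
    intro w w' hne
    rw [Finset.disjoint_left]
    intro z hz hz'
    simp only [hB, Finset.mem_filter] at hz hz'
    rw [hz.2] at hz'
    exact hne (Finset.singleton_injective hz'.2)
  have hNZ : ∀ w ∈ T i, Z.filter (fun z => G.Adj w z) ⊆ B w ∪ D := by
    intro w hw z hz
    rw [Finset.mem_filter] at hz
    rw [Finset.mem_union]
    by_cases h : 2 ≤ (NT G (T i) z).card
    · right
      rw [hDdef, DH, Finset.mem_filter]
      exact ⟨hz.1, h⟩
    · left
      simp only [hB, Finset.mem_filter]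
      refine ⟨hz.1, ?_⟩
      have hwN : w ∈ NT G (T i) z := mem_NT.2 ⟨hw, hz.2.symm⟩
      have h1 : (NT G (T i) z).card = 1 := by
        have := Finset.card_pos.2 ⟨w, hwN⟩
        omega
      obtain ⟨a, ha⟩ := Finset.card_eq_one.1 h1
      rw [ha] at hwN ⊢
      rw [Finset.mem_singleton] at hwN
      rw [hwN]
  have hsumB : ∀ S : Finset V, S ⊆ T i → ∑ w ∈ S, (B w).card + D.card ≤ Z.card := by
    intro S hS
    have h1 : (S.biUnion B).card = ∑ w ∈ S, (B w).card :=
      Finset.card_biUnion (fun w hw w' hw' hne => hBB w w' hne)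
    have h2 : Disjoint (S.biUnion B) D := by
      rw [Finset.disjoint_left]
      intro z hz hzD
      rw [Finset.mem_biUnion] at hz
      obtain ⟨w, _, hzw⟩ := hz
      exact (Finset.disjoint_left.1 (hBD w)) hzw hzD
    rw [← h1, ← Finset.card_union_of_disjoint h2]
    apply Finset.card_le_card
    intro z hz
    rw [Finset.mem_union, Finset.mem_biUnion] at hz
    rcases hz with ⟨w, _, hzw⟩ | hz
    · simp only [hB, Finset.mem_filter] at hzw
      exact hzw.1
    · rw [hDdef, DH, Finset.mem_filter] at hz
      exact hz.1
  have hBlow : ∀ w ∈ T i, Z.card + 2 ≤ (B w).card + D.card + t := by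
    intro w hw
    have h1 := hdeg w hw
    have h2 := (Finset.card_le_card (hNZ w hw)).trans (Finset.card_union_le _ _)
    omega
  have hDlow : Z.card + 2 ≤ D.card + t := by
    by_contra hcon
    push Not at hcon
    have h1 := hsumB (T i) (Finset.Subset.refl _)
    obtain ⟨β, hβ⟩ : ∃ β, Z.card + 2 = D.card + t + β := ⟨Z.card + 2 - (D.card + t), by omega⟩
    have hβ1 : 1 ≤ β := by omega
    have h2 : ∀ w ∈ T i, β ≤ (B w).card := by
      intro w hw
      have := hBlow w hw
      omega
    have h3 : t * β ≤ ∑ w ∈ T i, (B w).card := by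
      have := Finset.card_nsmul_le_sum (T i) (fun w => (B w).card) β h2
      rw [smul_eq_mul] at this
      exact this
    have h4 : t * β + 2 ≤ β + t := by omega
    nlinarith [Nat.mul_le_mul (show 1 ≤ t by omega) hβ1, mul_nonneg
      (show (0 : ℤ) ≤ (t : ℤ) - 1 by omega) (show (0 : ℤ) ≤ (β : ℤ) - 1 by omega)]
  by_cases hcase : t = 2 ∨ 3 ≤ (NT G (T i) i).card
  · -- all of D may be used
    have hGD : GH G Z T i = D := by
      rw [GH, ← hDdef]
      apply Finset.filter_true_of_mem
      intro z _
      rcases hcase with h | h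
      · exact Or.inr (Or.inl h)
      · exact Or.inr (Or.inr (Or.inl h))
    rw [hGD]
    have hex : ∃ w ∈ T i, (B w).card = 0 := by
      by_contra hcon
      push Not at hcon
      have h1 := Finset.card_nsmul_le_sum (T i) (fun w => (B w).card) 1
        (fun w hw => Nat.one_le_iff_ne_zero.2 (hcon w hw))
      rw [smul_eq_mul, mul_one] at h1
      have h2 := hsumB (T i) (Finset.Subset.refl _)
      omega
    obtain ⟨w, hw, hw0⟩ := hex
    refine ⟨w, hw, ?_⟩
    have h2 := (Finset.card_le_card (hNZ w hw)).trans (Finset.card_union_le _ _)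
    omega
  · push Not at hcase
    have hN2 : (NT G (T i) i).card = 2 := by
      have := own_card hD hi
      omega
    set S := T i \ NT G (T i) i with hS
    have hScard : S.card = t - 2 := by
      rw [hS, Finset.card_sdiff_of_subset (show NT G (T i) i ⊆ T i from Finset.filter_subset _ _),
        hN2]
    have hSne : S.Nonempty := Finset.card_pos.1 (by omega)
    have hex : ∃ w ∈ S, (B w).card ≤ 1 := by
      by_contra hcon
      push Not at hcon
      have h1 := Finset.card_nsmul_le_sum S (fun w => (B w).card) 2
        (fun w hw => hcon w hw)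
      rw [smul_eq_mul] at h1
      have h2 := hsumB S Finset.sdiff_subset
      have h3 := Finset.card_pos.2 hSne
      omega
    obtain ⟨w, hwS, hw1⟩ := hex
    rw [hS, Finset.mem_sdiff] at hwS
    refine ⟨w, hwS.1, ?_⟩
    have hiG : i ∈ GH G Z T i := by
      rw [GH, Finset.mem_filter, DH, Finset.mem_filter]
      exact ⟨⟨hi, own_card hD hi⟩, Or.inl rfl⟩
    have hsub : Z.filter (fun z => G.Adj w z) ⊆ B w ∪ (GH G Z T i).erase i := by
      intro z hz
      have h1 := hNZ w hwS.1 hz
      rw [Finset.mem_union] at h1 ⊢
      rcases h1 with h1 | h1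
      · exact Or.inl h1
      · right
        rw [Finset.mem_filter] at hz
        have hne : NT G (T i) z ≠ NT G (T i) i := by
          intro heq
          apply hwS.2
          rw [← heq]
          exact mem_NT.2 ⟨hwS.1, hz.2.symm⟩
        rw [Finset.mem_erase, GH, Finset.mem_filter]
        refine ⟨?_, h1, Or.inr (Or.inr (Or.inr hne))⟩
        rintro rfl
        exact hne rfl
    have h2 := (Finset.card_le_card hsub).trans (Finset.card_union_le _ _)
    rw [Finset.card_erase_of_mem hiG] at h2
    have h3 := Finset.card_pos.2 ⟨i, hiG⟩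
    omega

theorem GH_seg {G : SimpleGraph V} [DecidableRel G.Adj] {U Z : Finset V} {T : V → Finset V}
    (hD : Dec G U Z T) {i : V} (hi : i ∈ Z) {y z : V} (hy : y ∈ GH G Z T i)
    (hz : z ∈ GH G Z T i) : Seg G (T i) y z := by
  rw [GH, Finset.mem_filter, DH, Finset.mem_filter] at hy hz
  exact seg_of_two (hD.clique i hi) hy.1.2 hz.1.2

theorem GH_seg_insert {G : SimpleGraph V} [DecidableRel G.Adj] {U Z : Finset V}
    {T : V → Finset V} (hD : Dec G U Z T) {i : V} (hi : i ∈ Z) {y z : V}
    (hy : y ∈ GH G Z T i) (hz : z ∈ GH G Z T i) (hyi : i ≠ y) (hzi : i ≠ z) :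
    Seg G (insert i (T i)) y z := by
  rw [GH, Finset.mem_filter, DH, Finset.mem_filter] at hy hz
  refine seg_insert_of (hD.clique i hi) (fun h => hD.hTZ i hi i h hi) hy.1.2 hz.1.2
    (own_card hD hi) ?_
  rcases hy.2 with h | h | h | h
  · exact absurd h.symm hyi
  · exact Or.inl h
  · exact Or.inr (Or.inl h)
  · exact Or.inr (Or.inr h)

theorem GH_sub {G : SimpleGraph V} [DecidableRel G.Adj] {Z : Finset V} {T : V → Finset V}
    {i : V} : GH G Z T i ⊆ Z := by
  intro z hz
  rw [GH, Finset.mem_filter, DH, Finset.mem_filter] at hz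
  exact hz.1.1

/-- the counting argument -/
theorem fewer {G : SimpleGraph V} [DecidableRel G.Adj] {U Z : Finset V} {T : V → Finset V}
    (hD : Dec G U Z T) (hZ : 0 < Z.card)
    (hdeg : ∀ i ∈ Z, ∀ w ∈ T i,
      Z.card + 2 ≤ (Z.filter (fun z => G.Adj w z)).card + (T i).card)
    (hsum : ∀ u : V → V, (∀ i ∈ Z, u i ∈ T i) →
      2 * Z.card ≤ ∑ i ∈ Z, (Z.filter (fun z => G.Adj (u i) z)).card) :
    ∃ L, CovU G U L ∧ L.length + 1 ≤ Z.card := by
  classical
  have hex : ∀ i ∈ Z, ∃ w ∈ T i, (Z.filter (fun z => G.Adj w z)).card ≤ (GH G Z T i).card :=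
    fun i hi => exists_few hD hi (hdeg i hi)
  choose! u hu hu2 using hex
  have hG : 2 * Z.card ≤ ∑ i ∈ Z, (GH G Z T i).card :=
    (hsum u hu).trans (Finset.sum_le_sum hu2)
  have ht2 : ∀ i ∈ Z, 2 ≤ (T i).card := by
    intro i hi
    have h1 := hdeg i hi _ (hu i hi)
    have h2 : (Z.filter (fun z => G.Adj (u i) z)).card ≤ Z.card := Finset.card_filter_le _ _
    omega
  by_cases hS : ∃ i ∈ Z, (T i).card = 2
  · obtain ⟨i, hi, hti⟩ := hS
    -- a clique with two elements is joined to all hubs
    have hfull : ∀ i ∈ Z, (T i).card = 2 → ∀ z ∈ Z, 2 ≤ (NT G (T i) z).card := by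
      intro i hi hti z hz
      have h1 : NT G (T i) z = T i := by
        apply Finset.Subset.antisymm (Finset.filter_subset _ _)
        intro w hw
        refine mem_NT.2 ⟨hw, ?_⟩
        have h2 := hdeg i hi w hw
        have h3 : Z.filter (fun z => G.Adj w z) = Z := by
          apply Finset.eq_of_subset_of_card_le (Finset.filter_subset _ _)
          omega
        have h4 : z ∈ Z.filter (fun z => G.Adj w z) := by rw [h3]; exact hz
        exact (Finset.mem_filter.1 h4).2.symm
      rw [h1, hti]
    by_cases hS2 : ∃ j ∈ Z, j ≠ i ∧ (T j).card = 2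
    · obtain ⟨j, hj, hji, htj⟩ := hS2
      apply merge hD (Γ := fun _ => Z) (L := [(j, i, i), (i, j, j)])
      · refine ⟨by simp, by simp, ?_, ?_, ?_, ?_⟩
        · intro x hx y hy
          simp at hx hy
          rw [← hx, ← hy]
        · intro t ht
          simp at ht
          rcases ht with rfl | rfl
          · exact ⟨hj, hi, hji⟩
          · exact ⟨hi, hj, hji.symm⟩
        · simpa using hji.symm
        · simpa using hji.symm
      · simp
      · intro t ht
        simp at ht
        rcases ht with rfl | rfl
        · exact hi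
        · exact hj
      · intro t ht
        simp at ht
        rcases ht with rfl | rfl
        · exact hi
        · exact hj
      · intro t ht
        simp at ht
        rcases ht with rfl | rfl
        · exact seg_of_two (hD.clique i hi) (hfull i hi hti i hi) (hfull i hi hti j hj)
        · exact seg_of_two (hD.clique j hj) (hfull j hj htj j hj) (hfull j hj htj i hi)
      · intro t ht h1 h2
        simp at ht
        rcases ht with rfl | rfl
        · exact absurd rfl h2
        · exact absurd rfl h2
      · intro t ht h1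
        simp at ht
        rcases ht with rfl | rfl
        · exact absurd (by simp) h1
        · exact absurd (by simp) h1
    · push Not at hS2
      have hj : ∃ j ∈ Z.erase i, 2 ≤ (GH G Z T j).card := by
        by_contra hcon
        push Not at hcon
        have h1 := Finset.add_sum_erase Z (fun i => (GH G Z T i).card) hi
        have h1' : (GH G Z T i).card + ∑ x ∈ Z.erase i, (GH G Z T x).card =
            ∑ x ∈ Z, (GH G Z T x).card := h1
        have h2 : ∑ j ∈ Z.erase i, (GH G Z T j).card ≤ ∑ j ∈ Z.erase i, 1 :=
          Finset.sum_le_sum (fun j hj => by have := hcon j hj; omega)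
        have h3 : (GH G Z T i).card ≤ Z.card := Finset.card_le_card GH_sub
        rw [Finset.sum_const, smul_eq_mul, mul_one, Finset.card_erase_of_mem hi] at h2
        omega
      obtain ⟨j, hjm, hj2⟩ := hj
      rw [Finset.mem_erase] at hjm
      obtain ⟨y, hy⟩ := Finset.card_pos.1 (show 0 < (GH G Z T j).card by omega)
      obtain ⟨z, hz, hzy⟩ := Finset.exists_mem_ne (show 1 < (GH G Z T j).card by omega) y
      have hyZ := GH_sub hy
      have hzZ := GH_sub hz
      apply merge hD (Γ := fun _ => Z) (L := [(y, j, z), (z, i, y)])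
      · refine ⟨by simp, by simp, ?_, ?_, ?_, ?_⟩
        · intro x hx w hw
          simp at hx hw
          rw [← hx, ← hw]
        · intro t ht
          simp at ht
          rcases ht with rfl | rfl
          · exact ⟨hyZ, hzZ, hzy.symm⟩
          · exact ⟨hzZ, hyZ, hzy⟩
        · simpa using hjm.1
        · simpa using hzy
      · simp
      · intro t ht
        simp at ht
        rcases ht with rfl | rfl
        · exact hjm.2
        · exact hi
      · intro t ht
        simp at ht
        rcases ht with rfl | rfl
        · exact hzZ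
        · exact hyZ
      · intro t ht
        simp at ht
        rcases ht with rfl | rfl
        · exact GH_seg hD hjm.2 hz hy
        · exact seg_of_two (hD.clique i hi) (hfull i hi hti y hyZ) (hfull i hi hti z hzZ)
      · intro t ht h1 h2
        simp at ht
        rcases ht with rfl | rfl
        · exact GH_seg_insert hD hjm.2 hz hy h2 h1
        · exact seg_insert_of (hD.clique i hi) (fun h => hD.hTZ i hi i h hi)
            (hfull i hi hti y hyZ) (hfull i hi hti z hzZ) (own_card hD hi) (Or.inl hti)
      · intro t ht h1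
        simp at ht
        have hgen : ∀ x ∈ Z, x ≠ i → 3 ≤ (T x).card := by
          intro x hx hxi
          have h2 := ht2 x hx
          have h3 := hS2 x hx hxi
          omega
        rcases ht with rfl | rfl
        · apply hgen _ hzZ
          rintro rfl
          exact h1 (by simp)
        · apply hgen _ hyZ
          rintro rfl
          exact h1 (by simp)
  · push Not at hS
    obtain ⟨L, hL1, hL2, hL3⟩ := exists_cycT (Z.card + Z.card) (GH G Z T) Z Z rfl (by omega)
      (fun i _ => GH_sub) (by omega)
    apply merge hD hL1 hL2 hL3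
    · intro t ht
      exact GH_sub (hL1.ok t ht).2.1
    · intro t ht
      exact GH_seg hD (hL3 t ht) (hL1.ok t ht).2.1 (hL1.ok t ht).1
    · intro t ht h1 h2
      exact GH_seg_insert hD (hL3 t ht) (hL1.ok t ht).2.1 (hL1.ok t ht).1 h2 h1
    · intro t ht _
      have hz : t.2.2 ∈ Z := GH_sub (hL1.ok t ht).2.1
      have h1 := ht2 _ hz
      have h2 := hS _ hz
      omega

end Pool.Agent.TF82
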