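import Pool.Agent.TF82.Base

/-! A bipartite graph with at least as many edges as vertices contains a cycle (list form). -/

namespace Pool.Agent.TF82

open List

universe u

set_option linter.unusedSectionVars false
set_option linter.unusedVariables false

variable {V : Type u} [DecidableEq V]

/-- one step `(y, i, z)`: the left vertex `i` is adjacent to `y` and `z` -/
def StepOK (Γ : V → Finset V) (t : V × V × V) : Prop :=
  t.1 ∈ Γ t.2.1 ∧ t.2.2 ∈ Γ t.2.1 ∧ t.1 ≠ t.2.2

/-- closed alternating list of steps (newest step first) -/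
structure CycT (Γ : V → Finset V) (L : List (V × V × V)) : Prop where
  ne : L ≠ []
  chain : L.IsChain (fun t t' => t.1 = t'.2.2)
  close : ∀ x ∈ L.head?, ∀ y ∈ L.getLast?, x.2.2 = y.1
  ok : ∀ t ∈ L, StepOK Γ t
  nod : (L.map (fun t => t.2.1)).Nodup
  nodz : (L.map (fun t => t.2.2)).Nodup

theorem CycT.mono {Γ Γ' : V → Finset V} {L : List (V × V × V)} (h : CycT Γ L)
    (hΓ : ∀ i, Γ i ⊆ Γ' i) : CycT Γ' L :=
  ⟨h.ne, h.chain, h.close, fun t ht => ⟨hΓ _ (h.ok t ht).1, hΓ _ (h.ok t ht).2.1, (h.ok t ht).2.2⟩,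
    h.nod, h.nodz⟩

/-- a trail with current end `h` -/
structure TrL (Γ : V → Finset V) (h : V) (L : List (V × V × V)) : Prop where
  chain : L.IsChain (fun t t' => t.1 = t'.2.2)
  hd : ∀ t ∈ L.head?, t.2.2 = h
  nod : (L.map (fun t => t.2.1)).Nodup
  nody : (h :: L.map (fun t => t.1)).Nodup
  ok : ∀ t ∈ L, StepOK Γ t

theorem zs_eq : ∀ (L : List (V × V × V)) (h : V), L.IsChain (fun t t' => t.1 = t'.2.2) →
    (∀ t ∈ L.head?, t.2.2 = h) →
    L.map (fun t => t.2.2) = (h :: L.map (fun t => t.1)).dropLast := by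
  intro L
  induction L with
  | nil => intro h _ _; simp
  | cons t L ih =>
    intro h hch hhd
    have h1 : t.2.2 = h := hhd t (by simp)
    have h2 := ih t.1 (List.IsChain.tail hch) (by
      intro t' ht'
      rcases L with _ | ⟨s, L'⟩
      · simp at ht'
      · simp at ht'
        subst ht'
        rw [List.isChain_cons_cons] at hch
        exact hch.1.symm)
    rw [List.map_cons, h2, h1]
    simp

theorem TrL.cut {Γ : V → Finset V} {h : V} {P S : List (V × V × V)}
    (hT : TrL Γ h (P ++ S)) (hP : P ≠ []) : TrL Γ h P ∧ (P.map (fun t => t.2.2)).Nodup ∧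
      (P.getLast hP).1 ∉ P.map (fun t => t.2.2) ∧ (∀ t ∈ S.head?, (P.getLast hP).1 = t.2.2) ∧
      ∀ t ∈ S, t.2.1 ∉ P.map (fun t => t.2.1) := by
  obtain ⟨h1, h2, h3, h4, h5⟩ := hT
  have hch := List.isChain_append.1 h1
  have hlast : P.getLast? = some (P.getLast hP) := List.getLast?_eq_getLast_of_ne_nil hP
  have hn : (h :: P.map (fun t => t.1)).Nodup := by
    rw [List.map_append, ← List.cons_append] at h4
    exact (List.nodup_append.1 h4).1
  have hhd : ∀ t ∈ P.head?, t.2.2 = h := by
    intro t ht
    apply h2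
    rw [List.head?_append_of_ne_nil _ hP]
    exact ht
  have hz := zs_eq P h hch.1 hhd
  have hne : (h :: P.map (fun t => t.1)) ≠ [] := by simp
  have hmne : P.map (fun t => t.1) ≠ [] := by simpa using hP
  have hlast2 : (h :: P.map (fun t => t.1)).getLast hne = (P.getLast hP).1 := by
    rw [List.getLast_cons hmne, List.getLast_map]
  have hsplit := List.dropLast_append_getLast hne
  rw [List.map_append, List.nodup_append] at h3
  refine ⟨⟨hch.1, hhd, h3.1, hn, fun t ht => h5 t (List.mem_append_left _ ht)⟩, ?_, ?_, ?_, ?_⟩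
  · rw [hz]
    exact hn.sublist (List.dropLast_sublist _)
  · rw [hz]
    intro hmem
    rw [← hsplit, List.nodup_append] at hn
    exact hn.2.2 _ hmem _ (by simp) hlast2.symm
  · intro t ht
    exact hch.2.2 _ hlast t ht
  · intro t ht hmem
    exact h3.2.2 _ hmem _ (List.mem_map_of_mem ht) rfl

theorem exists_cycT_min {Γ : V → Finset V} {A H : Finset V} (hA : A.Nonempty)
    (hΓ : ∀ i ∈ A, Γ i ⊆ H) (h2 : ∀ i ∈ A, 2 ≤ (Γ i).card)
    (h2' : ∀ h ∈ H, 2 ≤ (A.filter (fun i => h ∈ Γ i)).card) :
    ∃ L, CycT Γ L ∧ 2 ≤ L.length ∧ ∀ t ∈ L, t.2.1 ∈ A := by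
  classical
  obtain ⟨i0, hi0⟩ := hA
  have hc0 := h2 i0 hi0
  obtain ⟨h0, hh0⟩ : (Γ i0).Nonempty := Finset.card_pos.1 (by omega)
  obtain ⟨n, ⟨h, L, hT, hh, hLA, hn⟩, hmax⟩ := exists_max_nat
    (fun n => ∃ h L, TrL Γ h L ∧ h ∈ H ∧ (∀ t ∈ L, t.2.1 ∈ A) ∧ L.length = n) A.card
    ⟨0, h0, [], ⟨by simp, by simp, by simp, by simp, by simp⟩, hΓ i0 hi0 hh0, by simp, by simp⟩
    (by
      rintro n ⟨h, L, hT, hh, hLA, rfl⟩
      have := nodup_len_le (U := A) hT.nod (by
        intro x hx
        obtain ⟨t, ht, rfl⟩ := List.mem_map.1 hx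
        exact hLA t ht)
      simpa using this)
  -- choose a left vertex at `h` different from the last one
  obtain ⟨i, hiA, hhi, hilast⟩ : ∃ i ∈ A, h ∈ Γ i ∧ ∀ t ∈ L.head?, i ≠ t.2.1 := by
    have hc := h2' h hh
    rcases L with _ | ⟨t, L⟩
    · obtain ⟨i, hi⟩ : (A.filter (fun i => h ∈ Γ i)).Nonempty := Finset.card_pos.1 (by omega)
      rw [Finset.mem_filter] at hi
      exact ⟨i, hi.1, hi.2, by simp⟩
    · obtain ⟨i, hi, hne⟩ := Finset.exists_mem_ne
        (show 1 < (A.filter (fun i => h ∈ Γ i)).card by omega) t.2.1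
      rw [Finset.mem_filter] at hi
      refine ⟨i, hi.1, hi.2, ?_⟩
      intro t' ht'
      simp at ht'
      rw [← ht']
      exact hne
  by_cases hiL : i ∈ L.map (fun t => t.2.1)
  · -- the left vertex was visited
    obtain ⟨t, htL, hti⟩ := List.mem_map.1 hiL
    obtain ⟨P, S, rfl⟩ := List.append_of_mem htL
    have hP : P ≠ [] := by
      rintro rfl
      exact hilast t (by simp) hti.symm
    obtain ⟨hTP, hz, hlz, hlast, hcl⟩ := hT.cut hP
    have hty : (P.getLast hP).1 = t.2.2 := hlast t (by simp)
    have hlast' : P.getLast? = some (P.getLast hP) := List.getLast?_eq_getLast_of_ne_nil hP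
    have hok := hT.ok t (by simp)
    refine ⟨(h, i, t.2.2) :: P, ⟨by simp, ?_, ?_, ?_, ?_, ?_⟩, ?_, ?_⟩
    · rcases P with _ | ⟨s, P⟩
      · exact absurd rfl hP
      · rw [List.isChain_cons_cons]
        exact ⟨(hTP.hd s (by simp)).symm, hTP.chain⟩
    · intro x hx y hy
      rw [List.getLast?_cons, hlast'] at hy
      simp at hx hy
      rw [← hx, ← hy]
      exact hty.symm
    · intro s hs
      rcases List.mem_cons.1 hs with rfl | hs
      · refine ⟨hhi, ?_, ?_⟩
        · show t.2.2 ∈ Γ i
          rw [← hti]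
          exact hok.2.1
        · show h ≠ t.2.2
          intro heq
          -- h is not among the y's
          have h4 := hTP.nody
          rw [List.nodup_cons] at h4
          apply h4.1
          rw [heq, ← hty]
          exact List.mem_map_of_mem (List.getLast_mem hP)
      · exact hTP.ok s hs
    · rw [List.map_cons, List.nodup_cons]
      refine ⟨?_, hTP.nod⟩
      show i ∉ _
      rw [← hti]
      exact hcl t (by simp)
    · rw [List.map_cons, List.nodup_cons]
      refine ⟨?_, hz⟩
      show t.2.2 ∉ _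
      rw [← hty]
      exact hlz
    · have : 1 ≤ P.length := List.length_pos_of_ne_nil hP
      simp; omega
    · intro s hs
      rcases List.mem_cons.1 hs with rfl | hs
      · exact hiA
      · exact hLA s (List.mem_append_left _ hs)
  · -- a new left vertex
    obtain ⟨h', hh', hne⟩ := Finset.exists_mem_ne (show 1 < (Γ i).card by
      have := h2 i hiA; omega) h
    by_cases hy : h' ∈ L.map (fun t => t.1)
    · obtain ⟨t, htL, hth⟩ := List.mem_map.1 hy
      obtain ⟨P, S, rfl⟩ := List.append_of_mem htL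
      have hsp : P ++ t :: S = (P ++ [t]) ++ S := by simp
      rw [hsp] at hT
      have hP : P ++ [t] ≠ [] := by simp
      obtain ⟨hTP, hz, hlz, hlast, hcl⟩ := hT.cut hP
      have hgl : (P ++ [t]).getLast hP = t := by simp
      have hlast' : (P ++ [t]).getLast? = some t := by simp
      refine ⟨(h, i, h') :: (P ++ [t]), ⟨by simp, ?_, ?_, ?_, ?_, ?_⟩, ?_, ?_⟩
      · obtain ⟨s, P', hP'⟩ : ∃ s P', P ++ [t] = s :: P' := List.exists_cons_of_ne_nil hP
        rw [hP'] at hTP ⊢
        rw [List.isChain_cons_cons]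
        exact ⟨(hTP.hd s (by simp)).symm, hTP.chain⟩
      · intro x hx y hy
        rw [List.getLast?_cons, hlast'] at hy
        simp at hx hy
        rw [← hx, ← hy]
        exact hth.symm
      · intro s hs
        rcases List.mem_cons.1 hs with rfl | hs
        · exact ⟨hhi, hh', hne.symm⟩
        · exact hTP.ok s hs
      · rw [List.map_cons, List.nodup_cons]
        refine ⟨?_, hTP.nod⟩
        intro hmem
        apply hiL
        rw [hsp, List.map_append]
        exact List.mem_append_left _ hmem
      · rw [List.map_cons, List.nodup_cons]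
        refine ⟨?_, hz⟩
        show h' ∉ _
        rw [← hth, ← hgl]
        simpa using hlz
      · simp
      · intro s hs
        rcases List.mem_cons.1 hs with rfl | hs
        · exact hiA
        · apply hLA
          rw [hsp]
          exact List.mem_append_left _ hs
    · exfalso
      have hle := hmax (L.length + 1) ⟨h', (h, i, h') :: L, ⟨?_, ?_, ?_, ?_, ?_⟩, ?_, ?_, ?_⟩
      · omega
      · rcases L with _ | ⟨s, L⟩
        · simp
        · rw [List.isChain_cons_cons]
          exact ⟨(hT.hd s (by simp)).symm, hT.chain⟩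
      · intro t ht
        simp at ht
        rw [← ht]
      · rw [List.map_cons, List.nodup_cons]
        exact ⟨hiL, hT.nod⟩
      · rw [List.map_cons, List.nodup_cons]
        refine ⟨?_, hT.nody⟩
        intro hmem
        rcases List.mem_cons.1 hmem with h1 | h1
        · exact hne h1
        · exact hy h1
      · intro s hs
        rcases List.mem_cons.1 hs with rfl | hs
        · exact ⟨hhi, hh', hne.symm⟩
        · exact hT.ok s hs
      · exact hΓ i hiA hh'
      · intro s hs
        rcases List.mem_cons.1 hs with rfl | hs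
        · exact hiA
        · exact hLA s hs
      · simp

theorem exists_cycT : ∀ (N : ℕ) (Γ : V → Finset V) (A H : Finset V), A.card + H.card = N →
    0 < A.card + H.card → (∀ i ∈ A, Γ i ⊆ H) → A.card + H.card ≤ ∑ i ∈ A, (Γ i).card →
    ∃ L, CycT Γ L ∧ 2 ≤ L.length ∧ ∀ t ∈ L, t.2.1 ∈ A := by
  classical
  intro N
  induction N with
  | zero => intro Γ A H h1 h2; omega
  | succ N ih =>
    intro Γ A H hN hpos hΓ hsum
    by_cases hcase1 : ∃ i ∈ A, (Γ i).card ≤ 1
    · obtain ⟨i, hi, hci⟩ := hcase1
      have h1 := Finset.add_sum_erase A (fun i => (Γ i).card) hi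
      have h2 := Finset.card_erase_of_mem hi
      have h3 : 0 < A.card := Finset.card_pos.2 ⟨i, hi⟩
      have h4 : 0 < (A.erase i).card + H.card := by
        by_contra hcon
        have h5 : (A.erase i).card = 0 := by omega
        have h6 : H.card = 0 := by omega
        have h7 : (Γ i).card ≤ H.card := Finset.card_le_card (hΓ i hi)
        rw [Finset.card_eq_zero] at h5
        rw [h5] at h1
        simp at h1
        omega
      obtain ⟨L, hL1, hL2, hL3⟩ := ih Γ (A.erase i) H (by omega) h4
        (fun j hj => hΓ j (Finset.mem_of_mem_erase hj)) (by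
          have h1' : (Γ i).card + ∑ x ∈ A.erase i, (Γ x).card = ∑ x ∈ A, (Γ x).card := h1
          omega)
      exact ⟨L, hL1, hL2, fun t ht => Finset.mem_of_mem_erase (hL3 t ht)⟩
    by_cases hcase2 : ∃ h ∈ H, (A.filter (fun i => h ∈ Γ i)).card ≤ 1
    · obtain ⟨h, hh, hch⟩ := hcase2
      have h2 := Finset.card_erase_of_mem hh
      have h3 : 0 < H.card := Finset.card_pos.2 ⟨h, hh⟩
      have hs : ∑ i ∈ A, ((Γ i).erase h).card + (A.filter (fun i => h ∈ Γ i)).card =
          ∑ i ∈ A, (Γ i).card := by
        rw [Finset.card_filter, ← Finset.sum_add_distrib]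
        apply Finset.sum_congr rfl
        intro i hi
        by_cases hm : h ∈ Γ i
        · rw [if_pos hm, Finset.card_erase_add_one hm]
        · rw [if_neg hm, Finset.erase_eq_of_notMem hm]
          rfl
      have h4 : 0 < A.card + (H.erase h).card := by
        by_contra hcon
        have h5 : A.card = 0 := by omega
        rw [Finset.card_eq_zero] at h5
        rw [h5] at hsum
        simp at hsum
        rw [hsum] at hh
        simp at hh
      obtain ⟨L, hL1, hL2, hL3⟩ := ih (fun i => (Γ i).erase h) A (H.erase h) (by omega) h4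
        (fun j hj => Finset.erase_subset_erase _ (hΓ j hj)) (by omega)
      exact ⟨L, hL1.mono (fun i => Finset.erase_subset _ _), hL2, hL3⟩
    push Not at hcase1 hcase2
    have hAne : A.Nonempty := by
      rw [Finset.nonempty_iff_ne_empty]
      rintro rfl
      simp at hsum hpos
      rw [hsum] at hpos
      simp at hpos
    exact exists_cycT_min hAne hΓ (fun i hi => hcase1 i hi) (fun h hh => hcase2 h hh)

end Pool.Agent.TF82
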