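import Pool.Agent.TF82.Dec
import Pool.Agent.TF82.Trail

/-! Merging along a closed alternating list of cliques and hubs. -/

namespace Pool.Agent.TF82

open List

universe u

set_option linter.unusedSectionVars false
set_option linter.unusedVariables false

variable {V : Type u} [DecidableEq V]

/-- a path through exactly the vertices of `X`, from a neighbour of `y` to a neighbour of `z` -/
def Seg (G : SimpleGraph V) (X : Finset V) (y z : V) : Prop :=
  ∃ q : List V, q.Nodup ∧ q.IsChain G.Adj ∧ (∃ e, q.head? = some e ∧ G.Adj y e) ∧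
    (∃ f, q.getLast? = some f ∧ G.Adj f z) ∧ ∀ x, x ∈ q ↔ x ∈ X

theorem Seg.cons_chain {G : SimpleGraph V} {q : List V} {e y : V} (hch : q.IsChain G.Adj)
    (he : q.head? = some e) (hy : G.Adj y e) : (y :: q).IsChain G.Adj := by
  rcases q with _ | ⟨a, q⟩
  · simp at he
  · simp at he
    subst he
    rw [List.isChain_cons_cons]
    exact ⟨hy, hch⟩

theorem getLast?_cons_of_some {q : List V} {f y : V} (h : q.getLast? = some f) :
    (y :: q).getLast? = some f := by
  rw [List.getLast?_cons, h]; simp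

theorem glue {G : SimpleGraph V} {X : V → Finset V} : ∀ L : List (V × V × V), L ≠ [] →
    L.IsChain (fun t t' => t.1 = t'.2.2) →
    (∀ t ∈ L, Seg G (X t.2.1) t.2.2 t.1) →
    (L.map (fun t => t.2.1)).Nodup → (L.map (fun t => t.2.2)).Nodup →
    (∀ t ∈ L, ∀ s ∈ L, t.2.1 ≠ s.2.1 → Disjoint (X t.2.1) (X s.2.1)) →
    (∀ t ∈ L, ∀ s ∈ L, t.2.2 ∉ X s.2.1) →
    ∃ q : List V, q.Nodup ∧ q.IsChain G.Adj ∧ (∀ t ∈ L.head?, q.head? = some t.2.2) ∧
      (∀ t ∈ L.getLast?, ∃ f, q.getLast? = some f ∧ G.Adj f t.1) ∧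
      ∀ x, x ∈ q ↔ ∃ t ∈ L, x = t.2.2 ∨ x ∈ X t.2.1 := by
  intro L
  induction L with
  | nil => intro h; exact absurd rfl h
  | cons t L ih =>
    intro _ hch hseg hnod hnodz hdis hzX
    obtain ⟨q, hq1, hq2, ⟨e, he, hye⟩, ⟨f, hf, hfz⟩, hq5⟩ := hseg t (by simp)
    have hbn : (t.2.2 :: q).Nodup := by
      rw [List.nodup_cons]
      refine ⟨?_, hq1⟩
      intro h
      exact hzX t (by simp) t (by simp) ((hq5 _).1 h)
    have hbc : (t.2.2 :: q).IsChain G.Adj := Seg.cons_chain hq2 he hye
    have hbl : (t.2.2 :: q).getLast? = some f := getLast?_cons_of_some hf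
    rcases L with _ | ⟨s, L⟩
    · refine ⟨t.2.2 :: q, hbn, hbc, ?_, ?_, ?_⟩
      · intro r hr
        simp at hr
        rw [← hr]
        simp
      · intro r hr
        simp at hr
        rw [← hr]
        exact ⟨f, hbl, hfz⟩
      · intro x
        rw [List.mem_cons, hq5]
        simp
    · rw [List.isChain_cons_cons] at hch
      rw [List.map_cons, List.nodup_cons] at hnod hnodz
      obtain ⟨q', h1, h2, h3, h4, h5⟩ := ih (by simp) hch.2
        (fun r hr => hseg r (List.mem_cons_of_mem _ hr)) hnod.2 hnodz.2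
        (fun r hr r' hr' => hdis r (List.mem_cons_of_mem _ hr) r' (List.mem_cons_of_mem _ hr'))
        (fun r hr r' hr' => hzX r (List.mem_cons_of_mem _ hr) r' (List.mem_cons_of_mem _ hr'))
      have hq'h : q'.head? = some s.2.2 := h3 s (by simp)
      have hq'ne : q' ≠ [] := by
        rintro rfl
        simp at hq'h
      refine ⟨(t.2.2 :: q) ++ q', ?_, ?_, ?_, ?_, ?_⟩
      · rw [List.nodup_append]
        refine ⟨hbn, h1, ?_⟩
        rintro x hx y hy rfl
        obtain ⟨r, hr, hxr⟩ := (h5 x).1 hy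
        rw [List.mem_cons, hq5] at hx
        rcases hx with hx | hx
        · rcases hxr with h | h
          · apply hnodz.1
            have : t.2.2 = r.2.2 := by rw [← hx, ← h]
            rw [this]
            exact List.mem_map_of_mem (f := fun t => t.2.2) hr
          · rw [hx] at h
            exact hzX t (by simp) r (List.mem_cons_of_mem _ hr) h
        · rcases hxr with h | h
          · rw [h] at hx
            exact hzX r (List.mem_cons_of_mem _ hr) t (by simp) hx
          · have hne : t.2.1 ≠ r.2.1 := by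
              intro heq
              apply hnod.1
              rw [heq]
              exact List.mem_map_of_mem (f := fun t => t.2.1) hr
            exact (Finset.disjoint_left.1
              (hdis t (by simp) r (List.mem_cons_of_mem _ hr) hne)) hx h
      · rw [List.isChain_append]
        refine ⟨hbc, h2, ?_⟩
        intro x hx y hy
        rw [hbl] at hx
        rw [hq'h] at hy
        simp only [Option.mem_def, Option.some.injEq] at hx hy
        rw [← hx, ← hy, ← hch.1]
        exact hfz
      · intro r hr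
        simp at hr
        rw [← hr]
        simp
      · intro r hr
        have hr' : r ∈ (s :: L).getLast? := by
          rw [List.getLast?_cons_cons] at hr
          exact hr
        obtain ⟨f', hf', hadj⟩ := h4 r hr'
        refine ⟨f', ?_, hadj⟩
        rw [List.getLast?_append, hf']
        simp
      · intro x
        rw [List.mem_append, List.mem_cons, hq5, h5]
        constructor
        · rintro (h | ⟨r, hr, h⟩)
          · exact ⟨t, by simp, h⟩
          · exact ⟨r, List.mem_cons_of_mem _ hr, h⟩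
        · rintro ⟨r, hr, h⟩
          rcases List.mem_cons.1 hr with rfl | hr
          · exact Or.inl h
          · exact Or.inr ⟨r, hr, h⟩

theorem CycT.y_mem {Γ : V → Finset V} {L : List (V × V × V)} (h : CycT Γ L) {t : V × V × V}
    (ht : t ∈ L) : t.1 ∈ L.map (fun t => t.2.2) := by
  obtain ⟨P, S, rfl⟩ := List.append_of_mem ht
  rcases S with _ | ⟨s, S⟩
  · have hne : P ++ [t] ≠ [] := by simp
    obtain ⟨r, hr⟩ : ∃ r, (P ++ [t]).head? = some r := ⟨_, List.head?_eq_some_head hne⟩
    have := h.close r hr t (by simp)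
    rw [← this]
    exact List.mem_map_of_mem (f := fun t : V × V × V => t.2.2) (List.mem_of_head? hr)
  · have h1 := (List.isChain_append.1 h.chain).2.1
    rw [List.isChain_cons_cons] at h1
    rw [h1.1]
    have hs : s ∈ P ++ t :: s :: S := by simp
    exact List.mem_map_of_mem (f := fun t : V × V × V => t.2.2) hs

theorem multi_cycles {G : SimpleGraph V} {X : V → Finset V} : ∀ J : Finset V,
    (∀ j ∈ J, ∃ c, CycL G c ∧ ∀ x, x ∈ c ↔ x ∈ X j) →
    (∀ i ∈ J, ∀ j ∈ J, i ≠ j → Disjoint (X i) (X j)) →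
    ∃ L : List (List V), L.length = J.card ∧ (∀ c ∈ L, CycL G c) ∧ L.flatten.Nodup ∧
      ∀ x, x ∈ L.flatten ↔ ∃ j ∈ J, x ∈ X j := by
  intro J
  induction J using Finset.induction_on with
  | empty => intro _ _; exact ⟨[], by simp, by simp, by simp, by simp⟩
  | insert i J hi ih =>
    intro h1 h2
    obtain ⟨L, hL1, hL2, hL3, hL4⟩ := ih (fun j hj => h1 j (Finset.mem_insert_of_mem hj))
      (fun a ha b hb => h2 a (Finset.mem_insert_of_mem ha) b (Finset.mem_insert_of_mem hb))
    obtain ⟨c, hc, hcm⟩ := h1 i (Finset.mem_insert_self _ _)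
    refine ⟨c :: L, ?_, ?_, ?_, ?_⟩
    · rw [List.length_cons, hL1, Finset.card_insert_of_notMem hi]
    · intro d hd
      rcases List.mem_cons.1 hd with h | h
      · rw [h]; exact hc
      · exact hL2 d h
    · rw [List.flatten_cons, List.nodup_append]
      refine ⟨hc.1, hL3, ?_⟩
      rintro a ha b hb rfl
      obtain ⟨j, hj, haj⟩ := (hL4 a).1 hb
      have hij : i ≠ j := fun h => hi (h ▸ hj)
      exact (Finset.disjoint_left.1 (h2 i (Finset.mem_insert_self _ _) j
        (Finset.mem_insert_of_mem hj) hij)) ((hcm a).1 ha) haj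
    · intro x
      rw [List.flatten_cons, List.mem_append, hcm, hL4]
      simp

theorem cycle_clique {G : SimpleGraph V} {T : Finset V}
    (hT : ∀ a ∈ T, ∀ b ∈ T, a ≠ b → G.Adj a b) (h3 : 3 ≤ T.card) :
    ∃ c, CycL G c ∧ ∀ x, x ∈ c ↔ x ∈ T := by
  refine ⟨T.toList, ⟨T.nodup_toList, by simpa using h3, ?_, ?_⟩, fun x => Finset.mem_toList⟩
  · apply List.Pairwise.isChain
    refine List.Pairwise.imp_of_mem ?_ T.nodup_toList
    intro a b ha hb hab
    exact hT a (Finset.mem_toList.1 ha) b (Finset.mem_toList.1 hb) hab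
  · intro x hx y hy
    have hx' := Finset.mem_toList.1 (List.mem_of_getLast? hx)
    have hy' := Finset.mem_toList.1 (List.mem_of_head? hy)
    apply hT x hx' y hy'
    rintro rfl
    have hn := T.nodup_toList
    have hl : T.toList.length = T.card := Finset.length_toList T
    rcases hTl : T.toList with _ | ⟨a, l⟩
    · rw [hTl] at hl; simp at hl; omega
    · rw [hTl] at hx hy hn hl
      simp at hy
      subst hy
      rcases List.eq_nil_or_concat l with rfl | ⟨d, b, rfl⟩
      · simp at hl; omega
      · rw [List.concat_eq_append] at hx hn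
        rw [← List.cons_append, List.getLast?_append] at hx
        simp at hx
        subst hx
        simp at hn

theorem merge {G : SimpleGraph V} {U Z : Finset V} {T : V → Finset V} (hD : Dec G U Z T)
    {Γ : V → Finset V} {L : List (V × V × V)} (hcyc : CycT Γ L) (hlen : 2 ≤ L.length)
    (hLi : ∀ t ∈ L, t.2.1 ∈ Z) (hLz : ∀ t ∈ L, t.2.2 ∈ Z)
    (hseg : ∀ t ∈ L, Seg G (T t.2.1) t.2.2 t.1)
    (hins : ∀ t ∈ L, t.2.1 ≠ t.1 → t.2.1 ≠ t.2.2 →
      Seg G (insert t.2.1 (T t.2.1)) t.2.2 t.1)
    (hbig : ∀ t ∈ L, t.2.2 ∉ L.map (fun t => t.2.1) → 3 ≤ (T t.2.2).card) :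
    ∃ L', CovU G U L' ∧ L'.length + 1 ≤ Z.card := by
  classical
  set H : List V := L.map (fun t => t.2.2) with hH
  set A : List V := L.map (fun t => t.2.1) with hA
  set X : V → Finset V := fun i => if i ∈ H then T i else insert i (T i) with hX
  have hXsub : ∀ i, ∀ x ∈ X i, x ∈ T i ∨ (x = i ∧ i ∉ H) := by
    intro i x hx
    simp only [hX] at hx
    by_cases h : i ∈ H
    · rw [if_pos h] at hx
      exact Or.inl hx
    · rw [if_neg h, Finset.mem_insert] at hx
      rcases hx with h1 | h1
      · exact Or.inr ⟨h1, h⟩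
      · exact Or.inl h1
  have hTX : ∀ i, ∀ x ∈ T i, x ∈ X i := by
    intro i x hx
    simp only [hX]
    by_cases h : i ∈ H
    · rw [if_pos h]; exact hx
    · rw [if_neg h]; exact Finset.mem_insert_of_mem hx
  have hXself : ∀ i, i ∉ H → i ∈ X i := by
    intro i h
    simp only [hX]
    rw [if_neg h]; exact Finset.mem_insert_self _ _
  have hXdis : ∀ i ∈ Z, ∀ j ∈ Z, i ≠ j → Disjoint (X i) (X j) := by
    intro i hi j hj hij
    rw [Finset.disjoint_left]
    intro x hx hxj
    rcases hXsub i x hx with h1 | h1 <;> rcases hXsub j x hxj with h2 | h2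
    · exact hD.disj i hi j hj hij x h1 h2
    · exact hD.hTZ i hi x h1 (h2.1 ▸ hj)
    · exact hD.hTZ j hj x h2 (h1.1 ▸ hi)
    · exact hij (h1.1.symm.trans h2.1)
  have hzH : ∀ t ∈ L, t.2.2 ∈ H := fun t ht => List.mem_map_of_mem (f := fun t => t.2.2) ht
  have hzX : ∀ t ∈ L, ∀ j ∈ Z, t.2.2 ∉ X j := by
    intro t ht j hj hx
    rcases hXsub j _ hx with h1 | h1
    · exact hD.hTZ j hj _ h1 (hLz t ht)
    · exact h1.2 (h1.1 ▸ hzH t ht)
  have hsegX : ∀ t ∈ L, Seg G (X t.2.1) t.2.2 t.1 := by
    intro t ht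
    simp only [hX]
    by_cases h : t.2.1 ∈ H
    · rw [if_pos h]; exact hseg t ht
    · rw [if_neg h]
      refine hins t ht ?_ ?_
      · intro h1
        exact h (h1 ▸ hcyc.y_mem ht)
      · intro h1
        exact h (h1 ▸ hzH t ht)
  obtain ⟨q, hq1, hq2, hq3, hq4, hq5⟩ := glue L hcyc.ne hcyc.chain hsegX hcyc.nod hcyc.nodz
    (fun t ht s hs hne => hXdis _ (hLi t ht) _ (hLi s hs) hne)
    (fun t ht s hs => hzX t ht _ (hLi s hs))
  have hcycq : CycL G q := by
    refine ⟨hq1, ?_, hq2, ?_⟩
    · obtain ⟨t, L0, hL0⟩ := List.exists_cons_of_ne_nil hcyc.ne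
      have ht : t ∈ L := by rw [hL0]; simp
      obtain ⟨p, hp, p', hp', hpp', _, _⟩ := hD.own _ (hLi t ht)
      have hsub : ({t.2.2, p, p'} : Finset V) ⊆ q.toFinset := by
        intro x hx
        rw [List.mem_toFinset, hq5]
        simp only [Finset.mem_insert, Finset.mem_singleton] at hx
        rcases hx with rfl | rfl | rfl
        · exact ⟨t, ht, Or.inl rfl⟩
        · exact ⟨t, ht, Or.inr (hTX _ _ hp)⟩
        · exact ⟨t, ht, Or.inr (hTX _ _ hp')⟩
      have h1 := Finset.card_le_card hsub
      have h2 := List.toFinset_card_le q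
      have h3 : ({t.2.2, p, p'} : Finset V).card = 3 := by
        rw [Finset.card_insert_of_notMem, Finset.card_pair hpp']
        intro h
        rw [Finset.mem_insert, Finset.mem_singleton] at h
        rcases h with h | h
        · exact hD.hTZ _ (hLi t ht) p hp (h ▸ hLz t ht)
        · exact hD.hTZ _ (hLi t ht) p' hp' (h ▸ hLz t ht)
      omega
    · intro x hx y hy
      obtain ⟨r, hr⟩ : ∃ r, L.head? = some r := ⟨_, List.head?_eq_some_head hcyc.ne⟩
      obtain ⟨r', hr'⟩ : ∃ r', L.getLast? = some r' :=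
        ⟨_, List.getLast?_eq_getLast_of_ne_nil hcyc.ne⟩
      obtain ⟨f, hf, hadj⟩ := hq4 r' hr'
      rw [hf] at hx
      rw [hq3 r hr] at hy
      simp only [Option.mem_def, Option.some.injEq] at hx hy
      rw [← hx, ← hy, hcyc.close r hr r' hr']
      exact hadj
  set J : Finset V := Z.filter (fun i => i ∉ A) with hJ
  obtain ⟨L', hL1, hL2, hL3, hL4⟩ := multi_cycles (G := G) (X := X) J (by
      intro j hj
      rw [hJ, Finset.mem_filter] at hj
      by_cases h : j ∈ H
      · obtain ⟨t, ht, htj⟩ := List.mem_map.1 h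
        have h3 := hbig t ht (by
          show t.2.2 ∉ A
          rw [htj]; exact hj.2)
        have htj' : t.2.2 = j := htj
        rw [htj'] at h3
        obtain ⟨c, hc, hcm⟩ := cycle_clique (hD.clique j hj.1) h3
        refine ⟨c, hc, ?_⟩
        simp only [hX]
        rw [if_pos h]
        exact hcm
      · obtain ⟨p, hp, p', hp', hpp', ha, hb⟩ := hD.own j hj.1
        obtain ⟨c, hc, hcm⟩ := cycle_clique_hub (fun h => hD.hTZ j hj.1 j h hj.1)
          (hD.clique j hj.1) hp hp' hpp' ha hb
        refine ⟨c, hc, ?_⟩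
        simp only [hX]
        rw [if_neg h]
        exact hcm)
    (fun i hi j hj hij => hXdis i (Finset.mem_filter.1 hi).1 j (Finset.mem_filter.1 hj).1 hij)
  refine ⟨q :: L', CovU.cons hcycq ?_ ⟨hL2, hL3, ?_⟩, ?_⟩
  · intro x hx
    obtain ⟨t, ht, h | h⟩ := (hq5 x).1 hx
    · rw [h]; exact hD.hZ (hLz t ht)
    · rcases hXsub _ _ h with h1 | h1
      · exact hD.hT _ (hLi t ht) h1
      · rw [h1.1]; exact hD.hZ (hLi t ht)
  · intro x
    rw [hL4, Finset.mem_filter, hq5]
    constructor
    · rintro ⟨j, hj, hxj⟩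
      rw [hJ, Finset.mem_filter] at hj
      refine ⟨?_, ?_⟩
      · rcases hXsub _ _ hxj with h1 | h1
        · exact hD.hT j hj.1 h1
        · rw [h1.1]; exact hD.hZ hj.1
      · rintro ⟨t, ht, h | h⟩
        · rw [h] at hxj
          exact hzX t ht j hj.1 hxj
        · have hne : j ≠ t.2.1 := by
            intro heq
            apply hj.2
            rw [heq]
            exact List.mem_map_of_mem (f := fun t => t.2.1) ht
          exact (Finset.disjoint_left.1 (hXdis j hj.1 _ (hLi t ht) hne)) hxj h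
    · rintro ⟨hxU, hxn⟩
      rcases hD.cov x hxU with h | ⟨i, hi, hxi⟩
      · have hxH : x ∉ H := by
          intro hxH
          obtain ⟨t, ht, htx⟩ := List.mem_map.1 hxH
          exact hxn ⟨t, ht, Or.inl htx.symm⟩
        refine ⟨x, ?_, hXself x hxH⟩
        rw [hJ, Finset.mem_filter]
        refine ⟨h, ?_⟩
        intro hxA
        obtain ⟨t, ht, htx⟩ := List.mem_map.1 hxA
        have htx' : t.2.1 = x := htx
        exact hxn ⟨t, ht, Or.inr (by rw [htx']; exact hXself x hxH)⟩
      · refine ⟨i, ?_, hTX i x hxi⟩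
        rw [hJ, Finset.mem_filter]
        refine ⟨hi, ?_⟩
        intro hiA
        obtain ⟨t, ht, hti⟩ := List.mem_map.1 hiA
        have hti' : t.2.1 = i := hti
        exact hxn ⟨t, ht, Or.inr (by rw [hti']; exact hTX i x hxi)⟩
  · have hAcard : A.toFinset.card = L.length := by
      rw [List.toFinset_card_of_nodup hcyc.nod]
      simp
    have hAZ : A.toFinset ⊆ Z := by
      intro x hx
      obtain ⟨t, ht, htx⟩ := List.mem_map.1 (List.mem_toFinset.1 hx)
      have htx' : t.2.1 = x := htx
      rw [← htx']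
      exact hLi t ht
    have hJeq : J = Z \ A.toFinset := by
      ext x
      rw [hJ, Finset.mem_filter, Finset.mem_sdiff, List.mem_toFinset]
    have hJc : J.card = Z.card - A.toFinset.card := by
      rw [hJeq, Finset.card_sdiff_of_subset hAZ]
    have hle := Finset.card_le_card hAZ
    rw [List.length_cons, hL1, hJc, hAcard]
    rw [hAcard] at hle
    omega

end Pool.Agent.TF82
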