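import Pool.Agent.TF82.Base

/-! Removing a longest cycle that is closed at a given set of vertices. -/

namespace Pool.Agent.TF82

open List

universe u

set_option linter.unusedSectionVars false
set_option linter.unusedVariables false

variable {V : Type u} [DecidableEq V]

/-- A cycle in `U` through `S` containing all neighbours in `U` of the vertices of `S`. -/
def ClosedS (G : SimpleGraph V) (U S : Finset V) (c : List V) : Prop :=
  CycL G c ∧ (∀ x ∈ c, x ∈ U) ∧ (∀ x ∈ S, x ∈ c) ∧ ∀ x ∈ S, ∀ z ∈ U, G.Adj x z → z ∈ c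

/-- A genuine cover of `U` by disjoint cycles. -/
def CovU (G : SimpleGraph V) (U : Finset V) (L : List (List V)) : Prop :=
  (∀ c ∈ L, CycL G c) ∧ L.flatten.Nodup ∧ ∀ x, x ∈ L.flatten ↔ x ∈ U

theorem CovU.cons {G : SimpleGraph V} {U : Finset V} {c : List V} {L : List (List V)}
    (hc : CycL G c) (hcU : ∀ x ∈ c, x ∈ U) (hL : CovU G (U.filter (fun x => x ∉ c)) L) :
    CovU G U (c :: L) := by
  obtain ⟨h1, h2, h3⟩ := hL
  refine ⟨?_, ?_, ?_⟩
  · intro d hd
    rcases List.mem_cons.1 hd with h | h
    · rw [h]; exact hc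
    · exact h1 d h
  · rw [List.flatten_cons, List.nodup_append]
    refine ⟨hc.1, h2, ?_⟩
    rintro a ha b hb rfl
    exact (Finset.mem_filter.1 ((h3 a).1 hb)).2 ha
  · intro x
    rw [List.flatten_cons, List.mem_append, h3, Finset.mem_filter]
    constructor
    · rintro (h | h)
      · exact hcU x h
      · exact h.1
    · intro h
      by_cases hx : x ∈ c
      · exact Or.inl hx
      · exact Or.inr ⟨h, hx⟩

theorem exists_rem {G : SimpleGraph V} [DecidableRel G.Adj] {U S : Finset V} (hC : CLoc G U)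
    {c0 : List V} (h0 : ClosedS G U S c0) :
    ∃ c, ClosedS G U S c ∧ CLoc G (U.filter (fun x => x ∉ c)) := by
  obtain ⟨m, ⟨c, ⟨hc, hcU, hSc, hScl⟩, hcm⟩, hmax⟩ := exists_max_nat
    (fun m => ∃ c : List V, ClosedS G U S c ∧ c.length = m) U.card ⟨_, c0, h0, rfl⟩
    (by
      rintro m ⟨l, h1, rfl⟩
      exact nodup_len_le h1.1.1 h1.2.1)
  have hmax' : ∀ c', ClosedS G U S c' → c'.length ≤ c.length := by
    intro c' hc'
    rw [hcm]
    exact hmax _ ⟨c', hc', rfl⟩
  refine ⟨c, ⟨hc, hcU, hSc, hScl⟩, ?_⟩
  set W : Finset V := U.filter (fun x => x ∉ c) with hW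
  have hWU : W ⊆ U := Finset.filter_subset _ _
  -- no insertion is possible
  have noins : ∀ {y a v : V} (hy : y ∈ c), a ∈ W → Reach G W a v → G.Adj v y →
      ¬ G.Adj (c.prev y hy) a := by
    intro y a v hy haW hav hvy hadj
    obtain ⟨q, hq1, hq2, hq3, hq4, hq5⟩ := hav.path haW
    obtain ⟨c', hc', hmem, hlen⟩ := insert_path hc hy hq1 hq2
      (fun x hx => (Finset.mem_filter.1 (hq5 x hx)).2) hq3 hq4 hadj hvy
    have hcl : ClosedS G U S c' := by
      refine ⟨hc', ?_, fun x hx => (hmem x).2 (Or.inl (hSc x hx)), ?_⟩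
      · intro x hx
        rcases (hmem x).1 hx with h | h
        · exact hcU x h
        · exact hWU (hq5 x h)
      · intro s hs z hz hxz
        exact (hmem z).2 (Or.inl (hScl s hs z hz hxz))
    have h1 := hmax' c' hcl
    have h2 : 1 ≤ q.length := by
      rcases q with _ | ⟨_, _⟩
      · simp at hq3
      · simp
    omega
  have nocross : ∀ {v y z : V} (hy : y ∈ c) (hz : z ∈ c), v ∈ W → G.Adj v y → G.Adj v z →
      ¬ G.Adj (c.prev y hy) (c.prev z hz) := by
    intro v y z hy hz hvW hvy hvz hadj
    obtain ⟨c', hc', hmem, hlen⟩ := insert_cross hc hy hz (Finset.mem_filter.1 hvW).2 hvy hvz hadj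
    have hcl : ClosedS G U S c' := by
      refine ⟨hc', ?_, fun x hx => (hmem x).2 (Or.inl (hSc x hx)), ?_⟩
      · intro x hx
        rcases (hmem x).1 hx with h | h
        · exact hcU x h
        · rw [h]; exact hWU hvW
      · intro s hs z hz hxz
        exact (hmem z).2 (Or.inl (hScl s hs z hz hxz))
    have h1 := hmax' c' hcl
    omega
  intro I hIW hIind hIconn v hvI
  -- neighbours of v on c
  set N : Finset V := c.toFinset.filter (fun w => G.Adj v w) with hN
  have hNc : ∀ w ∈ N, w ∈ c := fun w hw => List.mem_toFinset.1 (Finset.mem_filter.1 hw).1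
  set P : Finset V := N.attach.image (fun w => c.prev w.1 (hNc w.1 w.2)) with hP
  have hPmem : ∀ p, p ∈ P ↔ ∃ y, ∃ hy : y ∈ c, G.Adj v y ∧ p = c.prev y hy := by
    intro p
    rw [hP, Finset.mem_image]
    constructor
    · rintro ⟨w, _, rfl⟩
      exact ⟨w.1, hNc w.1 w.2, (Finset.mem_filter.1 w.2).2, rfl⟩
    · rintro ⟨y, hy, hvy, rfl⟩
      have hyN : y ∈ N := by
        rw [hN, Finset.mem_filter]
        exact ⟨List.mem_toFinset.2 hy, hvy⟩
      exact ⟨⟨y, hyN⟩, Finset.mem_attach _ _, rfl⟩
  have hPcard : P.card = N.card := by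
    rw [hP, Finset.card_image_of_injective, Finset.card_attach]
    intro a b hab
    exact Subtype.ext (prev_inj hc.1 _ _ hab)
  have hPc : ∀ p ∈ P, p ∈ c := by
    intro p hp
    obtain ⟨y, hy, _, rfl⟩ := (hPmem p).1 hp
    exact List.prev_mem _ _ _
  have hvW := hIW hvI
  have hdisj : Disjoint I P := by
    rw [Finset.disjoint_left]
    intro a haI haP
    exact (Finset.mem_filter.1 (hIW haI)).2 (hPc a haP)
  have key := hC (I ∪ P) (by
      intro a ha
      rcases Finset.mem_union.1 ha with h | h
      · exact hWU (hIW h)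
      · exact hcU a (hPc a h)) (by
      intro a ha b hb hab
      rw [Finset.mem_coe, Finset.mem_union] at ha hb
      rcases ha with ha | ha <;> rcases hb with hb | hb
      · exact hIind ha hb hab
      · obtain ⟨y, hy, hvy, rfl⟩ := (hPmem b).1 hb
        intro h
        exact noins hy (hIW ha) (hIconn a ha v hvI) hvy h.symm
      · obtain ⟨y, hy, hvy, rfl⟩ := (hPmem a).1 ha
        intro h
        exact noins hy (hIW hb) (hIconn b hb v hvI) hvy h
      · obtain ⟨y, hy, hvy, rfl⟩ := (hPmem a).1 ha
        obtain ⟨z, hz, hvz, rfl⟩ := (hPmem b).1 hb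
        exact nocross hy hz hvW hvy hvz) (by
      have hto : ∀ a ∈ I ∪ P, Reach G U a v := by
        intro a ha
        rcases Finset.mem_union.1 ha with h | h
        · exact (hIconn a h v hvI).mono hWU
        · obtain ⟨y, hy, hvy, rfl⟩ := (hPmem a).1 h
          exact Relation.ReflTransGen.head
            ⟨hcU _ (List.prev_mem _ _ _), hcU _ hy, hc.prev_adj hy⟩
            (Relation.ReflTransGen.single ⟨hcU _ hy, hWU hvW, hvy.symm⟩)
      intro a ha b hb
      exact Relation.ReflTransGen.trans (hto a ha) (hto b hb).symm) v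
      (Finset.mem_union_left _ hvI)
  rw [Finset.card_union_of_disjoint hdisj, hPcard] at key
  have hsum : dU G U v = N.card + dU G W v := by
    unfold dU
    rw [hN, hW]
    rw [Finset.filter_filter]
    rw [← Finset.card_union_of_disjoint]
    · congr 1
      ext w
      simp only [Finset.mem_filter, Finset.mem_union, List.mem_toFinset]
      constructor
      · rintro ⟨h1, h2⟩
        by_cases h : w ∈ c
        · exact Or.inl ⟨h, h2⟩
        · exact Or.inr ⟨h1, h, h2⟩
      · rintro (⟨h1, h2⟩ | ⟨h1, h2, h3⟩)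
        · exact ⟨hcU w h1, h2⟩
        · exact ⟨h1, h3⟩
    · rw [Finset.disjoint_left]
      intro w h1 h2
      simp only [Finset.mem_filter, List.mem_toFinset] at h1 h2
      exact h2.2.1 h1.1
  omega

/-- Two non-adjacent vertices whose neighbourhoods lie on a common cycle save one cycle. -/
theorem cov_of_pair {G : SimpleGraph V} [DecidableRel G.Adj] {U : Finset V} (hC : CLoc G U)
    {a b : V} (hab : a ≠ b) (hadj : ¬ G.Adj a b) {c0 : List V}
    (h0 : ClosedS G U {a, b} c0) (k : ℕ)
    (hα : ∀ I : Finset V, I ⊆ U → G.IsIndepSet (I : Set V) → I.card ≤ k + 2) :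
    ∃ L : List (List V), L.length ≤ k + 1 ∧ CovU G U L := by
  obtain ⟨c, ⟨hc, hcU, hSc, hScl⟩, hCW⟩ := exists_rem hC h0
  obtain ⟨L, hL1, hL2, hL3, hL4⟩ := cover_of_indep k _ hCW (by
    intro I hIW hI
    have haI : a ∉ I := fun h => (Finset.mem_filter.1 (hIW h)).2 (hSc a (by simp))
    have hbI : b ∉ I := fun h => (Finset.mem_filter.1 (hIW h)).2 (hSc b (by simp))
    have hna : ∀ w ∈ I, ¬ G.Adj a w := by
      intro w hw h
      have hw' := Finset.mem_filter.1 (hIW hw)
      exact hw'.2 (hScl a (by simp) w hw'.1 h)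
    have hnb : ∀ w ∈ I, ¬ G.Adj b w := by
      intro w hw h
      have hw' := Finset.mem_filter.1 (hIW hw)
      exact hw'.2 (hScl b (by simp) w hw'.1 h)
    have h1 := hα (insert a (insert b I)) (by
      intro x hx
      rw [Finset.mem_insert, Finset.mem_insert] at hx
      rcases hx with rfl | rfl | hx
      · exact hcU _ (hSc _ (by simp))
      · exact hcU _ (hSc _ (by simp))
      · exact (Finset.mem_filter.1 (hIW hx)).1) (by
      intro x hx y hy hxy
      rw [Finset.mem_coe, Finset.mem_insert, Finset.mem_insert] at hx hy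
      rcases hx with rfl | rfl | hx <;> rcases hy with rfl | rfl | hy
      · exact absurd rfl hxy
      · exact hadj
      · exact hna _ hy
      · exact fun h => hadj h.symm
      · exact absurd rfl hxy
      · exact hnb _ hy
      · exact fun h => hna _ hx h.symm
      · exact fun h => hnb _ hx h.symm
      · exact hI hx hy hxy)
    rw [Finset.card_insert_of_notMem (by
      rw [Finset.mem_insert]
      rintro (h | h)
      · exact hab h
      · exact haI h), Finset.card_insert_of_notMem hbI] at h1
    omega)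
  exact ⟨c :: L, by simpa using hL1, CovU.cons hc hcU ⟨hL2, hL3, hL4⟩⟩

end Pool.Agent.TF82
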