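import Pool.Agent.TF82.Merge

/-! Paths through a clique, possibly with one more vertex inserted. -/

namespace Pool.Agent.TF82

open List

universe u

set_option linter.unusedSectionVars false
set_option linter.unusedVariables false

variable {V : Type u} [DecidableEq V]

theorem chain_of_clique {G : SimpleGraph V} {T : Finset V}
    (hT : ∀ a ∈ T, ∀ b ∈ T, a ≠ b → G.Adj a b) {l : List V} (hn : l.Nodup)
    (hl : ∀ x ∈ l, x ∈ T) : l.IsChain G.Adj := by
  apply List.Pairwise.isChain
  refine List.Pairwise.imp_of_mem ?_ hn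
  intro a b ha hb hab
  exact hT a (hl a ha) b (hl b hb) hab

theorem seg_clique {G : SimpleGraph V} {T : Finset V}
    (hT : ∀ a ∈ T, ∀ b ∈ T, a ≠ b → G.Adj a b) {y z e f : V} (he : e ∈ T) (hf : f ∈ T)
    (hef : e ≠ f) (hye : G.Adj y e) (hfz : G.Adj f z) : Seg G T y z := by
  classical
  set R : List V := ((T.erase e).erase f).toList with hR
  have hRm : ∀ x, x ∈ R ↔ x ≠ f ∧ x ≠ e ∧ x ∈ T := by
    intro x
    rw [hR, Finset.mem_toList, Finset.mem_erase, Finset.mem_erase]
  have hRn : R.Nodup := Finset.nodup_toList _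
  have hn : (e :: (R ++ [f])).Nodup := by
    rw [List.nodup_cons, List.nodup_append]
    refine ⟨?_, hRn, by simp, ?_⟩
    · intro h
      rcases List.mem_append.1 h with h | h
      · exact ((hRm e).1 h).2.1 rfl
      · exact hef (by simpa using h)
    · intro a ha b hb
      rw [List.mem_singleton] at hb
      rw [hb]
      exact ((hRm a).1 ha).1
  have hm : ∀ x, x ∈ e :: (R ++ [f]) ↔ x ∈ T := by
    intro x
    rw [List.mem_cons, List.mem_append, List.mem_singleton, hRm]
    constructor
    · rintro (rfl | h | rfl)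
      · exact he
      · exact h.2.2
      · exact hf
    · intro h
      by_cases h1 : x = e
      · exact Or.inl h1
      · by_cases h2 : x = f
        · exact Or.inr (Or.inr h2)
        · exact Or.inr (Or.inl ⟨h2, h1, h⟩)
  refine ⟨e :: (R ++ [f]), hn, chain_of_clique hT hn (fun x hx => (hm x).1 hx),
    ⟨e, by simp, hye⟩, ⟨f, ?_, hfz⟩, hm⟩
  rw [← List.cons_append, List.getLast?_append]; simp

theorem seg_of_split {G : SimpleGraph V} {T : Finset V}
    (hT : ∀ a ∈ T, ∀ b ∈ T, a ≠ b → G.Adj a b) {s y z e f a b : V} (hs : s ∉ T)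
    {P S : List V} (hn : (P ++ S).Nodup) (hm : ∀ x, x ∈ P ++ S ↔ x ∈ T)
    (hPe : P.head? = some e) (hPa : P.getLast? = some a) (hSb : S.head? = some b)
    (hSf : S.getLast? = some f) (hsa : G.Adj s a) (hsb : G.Adj s b) (hye : G.Adj y e)
    (hfz : G.Adj f z) : Seg G (insert s T) y z := by
  have hn' := List.nodup_append.1 hn
  have hPT : ∀ x ∈ P, x ∈ T := fun x hx => (hm x).1 (List.mem_append_left _ hx)
  have hST : ∀ x ∈ S, x ∈ T := fun x hx => (hm x).1 (List.mem_append_right _ hx)
  have hPne : P ≠ [] := by rintro rfl; simp at hPe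
  have hSne : S ≠ [] := by rintro rfl; simp at hSb
  refine ⟨P ++ s :: S, ?_, ?_, ⟨e, ?_, hye⟩, ⟨f, ?_, hfz⟩, ?_⟩
  · rw [List.nodup_append]
    refine ⟨hn'.1, List.nodup_cons.2 ⟨fun h => hs (hST s h), hn'.2.1⟩, ?_⟩
    intro x hx w hw
    rcases List.mem_cons.1 hw with h | h
    · rw [h]
      rintro rfl
      exact hs (hPT _ hx)
    · exact hn'.2.2 x hx w h
  · rw [List.isChain_append]
    refine ⟨chain_of_clique hT hn'.1 hPT, Seg.cons_chain (chain_of_clique hT hn'.2.1 hST) hSb hsb,
      ?_⟩
    intro x hx w hw
    rw [hPa] at hx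
    simp at hx hw
    rw [← hx, ← hw]
    exact hsa.symm
  · rw [List.head?_append_of_ne_nil _ hPne]; exact hPe
  · rw [List.getLast?_append, getLast?_cons_of_some hSf]; simp
  · intro x
    rw [List.mem_append, List.mem_cons, Finset.mem_insert, ← hm, List.mem_append]
    tauto

theorem seg_insert {G : SimpleGraph V} {T : Finset V}
    (hT : ∀ a ∈ T, ∀ b ∈ T, a ≠ b → G.Adj a b) {s y z e f : V} (hs : s ∉ T) (he : e ∈ T)
    (hf : f ∈ T) (hef : e ≠ f) (hye : G.Adj y e) (hfz : G.Adj f z)
    {w w' : V} (hw : w ∈ T) (hwe : w ≠ e) (hwf : w ≠ f) (hsw : G.Adj s w) (hw' : w' ∈ T)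
    (hww' : w' ≠ w) (hsw' : G.Adj s w') : Seg G (insert s T) y z := by
  classical
  by_cases h1 : w' = e
  · -- P = [e], S = w :: R ++ [f]
    set R : List V := (((T.erase e).erase f).erase w).toList with hR
    have hRm : ∀ x, x ∈ R ↔ x ≠ w ∧ x ≠ f ∧ x ≠ e ∧ x ∈ T := by
      intro x
      rw [hR, Finset.mem_toList, Finset.mem_erase, Finset.mem_erase, Finset.mem_erase]
    have hRn : R.Nodup := Finset.nodup_toList _
    refine seg_of_split hT hs (P := [e]) (S := w :: (R ++ [f])) (a := e) (b := w) (e := e) (f := f)
      ?_ ?_ (by simp) (by simp) (by simp) ?_ (h1 ▸ hsw') hsw hye hfz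
    · rw [List.singleton_append, List.nodup_cons, List.nodup_cons, List.nodup_append]
      refine ⟨?_, ?_, hRn, by simp, ?_⟩
      · rw [List.mem_cons, List.mem_append, List.mem_singleton, hRm]
        rintro (h | h | h)
        · exact hwe h.symm
        · exact h.2.2.1 rfl
        · exact hef h
      · rw [List.mem_append, List.mem_singleton, hRm]
        rintro (h | h)
        · exact h.1 rfl
        · exact hwf h
      · intro x hx b hb
        rw [List.mem_singleton] at hb
        rw [hb]
        exact ((hRm x).1 hx).2.1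
    · intro x
      rw [List.singleton_append, List.mem_cons, List.mem_cons, List.mem_append,
        List.mem_singleton, hRm]
      constructor
      · rintro (rfl | rfl | h | rfl)
        · exact he
        · exact hw
        · exact h.2.2.2
        · exact hf
      · intro h
        by_cases h1 : x = e
        · exact Or.inl h1
        by_cases h2 : x = w
        · exact Or.inr (Or.inl h2)
        by_cases h3 : x = f
        · exact Or.inr (Or.inr (Or.inr h3))
        · exact Or.inr (Or.inr (Or.inl ⟨h2, h3, h1, h⟩))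
    · rw [← List.cons_append, List.getLast?_append]; simp
  by_cases h2 : w' = f
  · set R : List V := (((T.erase e).erase f).erase w).toList with hR
    have hRm : ∀ x, x ∈ R ↔ x ≠ w ∧ x ≠ f ∧ x ≠ e ∧ x ∈ T := by
      intro x
      rw [hR, Finset.mem_toList, Finset.mem_erase, Finset.mem_erase, Finset.mem_erase]
    have hRn : R.Nodup := Finset.nodup_toList _
    refine seg_of_split hT hs (P := e :: (R ++ [w])) (S := [f]) (a := w) (b := f) (e := e) (f := f)
      ?_ ?_ (by simp) ?_ (by simp) (by simp) hsw (h2 ▸ hsw') hye hfz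
    · rw [List.nodup_append, List.nodup_cons, List.nodup_append]
      refine ⟨⟨?_, hRn, by simp, ?_⟩, by simp, ?_⟩
      · rw [List.mem_append, List.mem_singleton, hRm]
        rintro (h | h)
        · exact h.2.2.1 rfl
        · exact hwe h.symm
      · intro x hx b hb
        rw [List.mem_singleton] at hb
        rw [hb]
        exact ((hRm x).1 hx).1
      · intro x hx b hb
        rw [List.mem_singleton] at hb
        rw [hb]
        rw [List.mem_cons, List.mem_append, List.mem_singleton, hRm] at hx
        rcases hx with rfl | h | rfl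
        · exact hef
        · exact h.2.1
        · exact hwf
    · intro x
      rw [List.mem_append, List.mem_cons, List.mem_append, List.mem_singleton,
        List.mem_singleton, hRm]
      constructor
      · rintro ((rfl | h | rfl) | rfl)
        · exact he
        · exact h.2.2.2
        · exact hw
        · exact hf
      · intro h
        by_cases h1 : x = e
        · exact Or.inl (Or.inl h1)
        by_cases h2 : x = w
        · exact Or.inl (Or.inr (Or.inr h2))
        by_cases h3 : x = f
        · exact Or.inr h3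
        · exact Or.inl (Or.inr (Or.inl ⟨h2, h3, h1, h⟩))
    · rw [← List.cons_append, List.getLast?_append]; simp
  · set R : List V := ((((T.erase e).erase f).erase w).erase w').toList with hR
    have hRm : ∀ x, x ∈ R ↔ x ≠ w' ∧ x ≠ w ∧ x ≠ f ∧ x ≠ e ∧ x ∈ T := by
      intro x
      rw [hR, Finset.mem_toList, Finset.mem_erase, Finset.mem_erase, Finset.mem_erase,
        Finset.mem_erase]
    have hRn : R.Nodup := Finset.nodup_toList _
    refine seg_of_split hT hs (P := e :: (R ++ [w])) (S := [w', f]) (a := w) (b := w') (e := e)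
      (f := f) ?_ ?_ (by simp) ?_ (by simp) (by simp) hsw hsw' hye hfz
    · rw [List.nodup_append, List.nodup_cons, List.nodup_append]
      refine ⟨⟨?_, hRn, by simp, ?_⟩, by simpa using h2, ?_⟩
      · rw [List.mem_append, List.mem_singleton, hRm]
        rintro (h | h)
        · exact h.2.2.2.1 rfl
        · exact hwe h.symm
      · intro x hx b hb
        rw [List.mem_singleton] at hb
        rw [hb]
        exact ((hRm x).1 hx).2.1
      · intro x hx b hb
        rw [List.mem_cons, List.mem_singleton] at hb
        rw [List.mem_cons, List.mem_append, List.mem_singleton, hRm] at hx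
        rcases hb with rfl | rfl
        · rcases hx with rfl | h | rfl
          · exact fun h => h1 h.symm
          · exact h.1
          · exact hww'.symm
        · rcases hx with rfl | h | rfl
          · exact hef
          · exact h.2.2.1
          · exact hwf
    · intro x
      rw [List.mem_append, List.mem_cons, List.mem_append, List.mem_singleton,
        List.mem_cons, List.mem_singleton, hRm]
      constructor
      · rintro ((rfl | h | rfl) | rfl | rfl)
        · exact he
        · exact h.2.2.2.2
        · exact hw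
        · exact hw'
        · exact hf
      · intro h
        by_cases h1 : x = e
        · exact Or.inl (Or.inl h1)
        by_cases h2 : x = w
        · exact Or.inl (Or.inr (Or.inr h2))
        by_cases h3 : x = f
        · exact Or.inr (Or.inr h3)
        by_cases h4 : x = w'
        · exact Or.inr (Or.inl h4)
        · exact Or.inl (Or.inr (Or.inl ⟨h4, h2, h3, h1, h⟩))
    · rw [← List.cons_append, List.getLast?_append]; simp

/-- the neighbours of `z` in `T` -/
def NT (G : SimpleGraph V) [DecidableRel G.Adj] (T : Finset V) (z : V) : Finset V :=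
  T.filter (fun x => G.Adj z x)

theorem mem_NT {G : SimpleGraph V} [DecidableRel G.Adj] {T : Finset V} {z x : V} :
    x ∈ NT G T z ↔ x ∈ T ∧ G.Adj z x := by
  unfold NT; rw [Finset.mem_filter]

theorem seg_of_two {G : SimpleGraph V} [DecidableRel G.Adj] {T : Finset V}
    (hT : ∀ a ∈ T, ∀ b ∈ T, a ≠ b → G.Adj a b) {y z : V} (hy : 2 ≤ (NT G T y).card)
    (hz : 2 ≤ (NT G T z).card) : Seg G T y z := by
  obtain ⟨e, he⟩ := Finset.card_pos.1 (show 0 < (NT G T y).card by omega)
  obtain ⟨f, hf, hfe⟩ := Finset.exists_mem_ne (show 1 < (NT G T z).card by omega) e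
  rw [mem_NT] at he hf
  exact seg_clique hT he.1 hf.1 hfe.symm he.2 hf.2.symm

theorem seg_insert_of {G : SimpleGraph V} [DecidableRel G.Adj] {T : Finset V}
    (hT : ∀ a ∈ T, ∀ b ∈ T, a ≠ b → G.Adj a b) {s y z : V} (hsT : s ∉ T)
    (hy : 2 ≤ (NT G T y).card) (hz : 2 ≤ (NT G T z).card) (hs : 2 ≤ (NT G T s).card)
    (hcond : T.card = 2 ∨ 3 ≤ (NT G T s).card ∨ NT G T y ≠ NT G T s) :
    Seg G (insert s T) y z := by
  classical
  by_cases h2 : T.card = 2
  · have hall : ∀ x, 2 ≤ (NT G T x).card → NT G T x = T := by
      intro x hx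
      apply Finset.eq_of_subset_of_card_le (Finset.filter_subset _ _)
      rw [h2]; exact hx
    obtain ⟨e, f, hef, hTe⟩ := Finset.card_eq_two.1 h2
    have he : e ∈ T := by rw [hTe]; simp
    have hf : f ∈ T := by rw [hTe]; simp
    have hye := (mem_NT.1 ((hall y hy).symm ▸ he : e ∈ NT G T y)).2
    have hzf := (mem_NT.1 ((hall z hz).symm ▸ hf : f ∈ NT G T z)).2
    have hse := (mem_NT.1 ((hall s hs).symm ▸ he : e ∈ NT G T s)).2
    have hsf := (mem_NT.1 ((hall s hs).symm ▸ hf : f ∈ NT G T s)).2
    refine seg_of_split hT hsT (P := [e]) (S := [f]) (a := e) (b := f) (e := e) (f := f)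
      (by simpa using hef) ?_ (by simp) (by simp) (by simp) (by simp) hse hsf hye hzf.symm
    intro x
    rw [hTe]
    simp
  by_cases h3 : 3 ≤ (NT G T s).card
  · obtain ⟨e, he⟩ := Finset.card_pos.1 (show 0 < (NT G T y).card by omega)
    obtain ⟨f, hf, hfe⟩ := Finset.exists_mem_ne (show 1 < (NT G T z).card by omega) e
    have hc : 0 < (((NT G T s).erase e).erase f).card := by
      have h4 := Finset.pred_card_le_card_erase (s := NT G T s) (a := e)
      have h5 := Finset.pred_card_le_card_erase (s := (NT G T s).erase e) (a := f)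
      omega
    obtain ⟨w, hw⟩ := Finset.card_pos.1 hc
    rw [Finset.mem_erase, Finset.mem_erase] at hw
    obtain ⟨w', hw', hww'⟩ := Finset.exists_mem_ne (show 1 < (NT G T s).card by omega) w
    rw [mem_NT] at he hf hw'
    have hw2 := mem_NT.1 hw.2.2
    exact seg_insert hT hsT he.1 hf.1 hfe.symm he.2 hf.2.symm hw2.1 hw.2.1 hw.1 hw2.2 hw'.1 hww'
      hw'.2
  · have hne : NT G T y ≠ NT G T s := by
      rcases hcond with h | h | h
      · exact absurd h h2
      · exact absurd h h3
      · exact h
    have hex : ∃ e ∈ NT G T y, e ∉ NT G T s := by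
      by_contra hcon
      push Not at hcon
      exact hne (Finset.eq_of_subset_of_card_le hcon (by omega))
    obtain ⟨e, he, hes⟩ := hex
    obtain ⟨f, hf, hfe⟩ := Finset.exists_mem_ne (show 1 < (NT G T z).card by omega) e
    obtain ⟨w, hw, hwf⟩ := Finset.exists_mem_ne (show 1 < (NT G T s).card by omega) f
    obtain ⟨w', hw', hww'⟩ := Finset.exists_mem_ne (show 1 < (NT G T s).card by omega) w
    have hwe : w ≠ e := by
      rintro rfl
      exact hes hw
    rw [mem_NT] at he hf hw hw'
    exact seg_insert hT hsT he.1 hf.1 hfe.symm he.2 hf.2.symm hw.1 hwe hwf hw.2 hw'.1 hww'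
      hw'.2

end Pool.Agent.TF82
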